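import Pool.Agent.H52.XR2.S1
import Pool.Agent.H45.XR.B7

set_option autoImplicit false

open MeasureTheory Set Filter Topology Metric Asymptotics
open scoped Real ENNReal

namespace Pool.XR2

open Pool.Agent.H45.XR

/-- Flips `F` (of `C`) and `G` (of `C ∩ C'`) and the set `E` of common boundary angles. -/
structure FG (F G : ℝ → ℝ) (E : Set ℝ) : Prop where
  Fa : StrictAnti F
  Fi : ∀ θ, F (F θ) = θ
  Fp : ∀ θ, F (θ + 2 * π) = F θ - 2 * π
  Fc : Continuous F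
  Ga : StrictAnti G
  Gi : ∀ θ, G (G θ) = θ
  Gp : ∀ θ, G (θ + 2 * π) = G θ - 2 * π
  Gc : Continuous G
  e1 : ∀ x ∈ E, G x ∈ E
  e2 : ∀ x ∈ E, ¬ Fx G x → F x = G x
  e3 : ∀ x ∈ E, Fx F x → Fx G x ∧ F x = G x
  e4 : ∀ x ∈ E, Fx G x → ¬ Fx F x → ∃ δ > 0, ∀ y ∈ E, |y - x| < δ → y = x

/-- Accumulation points. -/
def Acc (E : Set ℝ) (z : ℝ) : Prop := AccR E z ∨ AccL E z

lemma acc_ex {E : Set ℝ} {z : ℝ} (h : Acc E z) {δ : ℝ} (hδ : 0 < δ) :
    ∃ y ∈ E, y ≠ z ∧ |y - z| < δ := by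
  rcases h with h | h
  · obtain ⟨y, hy, h1, h2⟩ := h δ hδ
    exact ⟨y, hy, h1.ne', by rw [abs_lt]; constructor <;> linarith⟩
  · obtain ⟨y, hy, h1, h2⟩ := h δ hδ
    exact ⟨y, hy, h2.ne, by rw [abs_lt]; constructor <;> linarith⟩

lemma acc_mem {E : Set ℝ} (hE : IsClosed E) {z : ℝ} (h : Acc E z) : z ∈ E := by
  rw [← hE.closure_eq, Metric.mem_closure_iff]
  intro ε hε
  obtain ⟨y, hy, -, h2⟩ := acc_ex h hε
  exact ⟨y, hy, by rw [dist_comm, Real.dist_eq]; exact h2⟩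

lemma FG.eq {F G : ℝ → ℝ} {E : Set ℝ} (h : FG F G E) (hE : IsClosed E) {z : ℝ}
    (hz : Acc E z) : F z = G z := by
  have hm := acc_mem hE hz
  by_cases h1 : Fx G z
  · by_cases h2 : Fx F z
    · exact (h.e3 z hm h2).2
    · obtain ⟨δ, hδ, h3⟩ := h.e4 z hm h1 h2
      obtain ⟨y, hy, h4, h5⟩ := acc_ex hz hδ
      exact absurd (h3 y hy h5) h4
  · exact h.e2 z hm h1

lemma accR_img {G : ℝ → ℝ} {E : Set ℝ} (Ga : StrictAnti G) (Gc : Continuous G)
    (e1 : ∀ x ∈ E, G x ∈ E) {z : ℝ} (h : AccR E z) : AccL E (G z) := by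
  intro δ hδ
  obtain ⟨η, hη, h1⟩ := Metric.continuous_iff.1 Gc z δ hδ
  obtain ⟨y, hy, h2, h3⟩ := h η hη
  refine ⟨G y, e1 y hy, ?_, Ga h2⟩
  have := h1 y (by rw [Real.dist_eq, abs_lt]; constructor <;> linarith)
  rw [Real.dist_eq, abs_lt] at this
  linarith

lemma accL_img {G : ℝ → ℝ} {E : Set ℝ} (Ga : StrictAnti G) (Gc : Continuous G)
    (e1 : ∀ x ∈ E, G x ∈ E) {z : ℝ} (h : AccL E z) : AccR E (G z) := by
  intro δ hδ
  obtain ⟨η, hη, h1⟩ := Metric.continuous_iff.1 Gc z δ hδ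
  obtain ⟨y, hy, h2, h3⟩ := h η hη
  refine ⟨G y, e1 y hy, Ga h3, ?_⟩
  have := h1 y (by rw [Real.dist_eq, abs_lt]; constructor <;> linarith)
  rw [Real.dist_eq, abs_lt] at this
  linarith

lemma FG.acc {F G : ℝ → ℝ} {E : Set ℝ} (h : FG F G E) {z : ℝ} (hz : Acc E z) :
    Acc E (G z) := by
  rcases hz with hz | hz
  · exact Or.inr (accR_img h.Ga h.Gc h.e1 hz)
  · exact Or.inl (accL_img h.Ga h.Gc h.e1 hz)

/-- Accumulation points on the left, none on the right. -/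
def PL (E : Set ℝ) (x : ℝ) : Prop := ∃ δ > 0, (∀ y, x - δ < y → y < x → Acc E y) ∧
  (∀ y, x < y → y < x + δ → ¬ Acc E y)

/-- Accumulation points on the right, none on the left. -/
def PR (E : Set ℝ) (x : ℝ) : Prop := ∃ δ > 0, (∀ y, x < y → y < x + δ → Acc E y) ∧
  (∀ y, x - δ < y → y < x → ¬ Acc E y)

lemma FG.pl {F G : ℝ → ℝ} {E : Set ℝ} (h : FG F G E) {x : ℝ} (hx : PL E x) : PR E (G x) := by
  obtain ⟨δ, hδ, h1, h2⟩ := hx
  obtain ⟨η, hη, h3⟩ := Metric.continuous_iff.1 h.Gc (G x) δ hδ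
  have h4 : ∀ y, |y - G x| < η → |G y - x| < δ := by
    intro y hy
    have := h3 y (by rw [Real.dist_eq]; exact hy)
    rw [h.Gi, Real.dist_eq] at this
    exact this
  refine ⟨η, hη, ?_, ?_⟩
  · intro y hy1 hy2
    have h5 := h4 y (by rw [abs_lt]; constructor <;> linarith)
    have h6 : G y < x := by have := h.Ga hy1; rwa [h.Gi] at this
    rw [abs_lt] at h5
    have h7 := h.acc (h1 (G y) (by linarith) h6)
    rwa [h.Gi] at h7
  · intro y hy1 hy2 hacc
    have h5 := h4 y (by rw [abs_lt]; constructor <;> linarith)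
    have h6 : x < G y := by have := h.Ga hy2; rwa [h.Gi] at this
    rw [abs_lt] at h5
    exact h2 (G y) h6 (by linarith) (h.acc hacc)

lemma FG.pr {F G : ℝ → ℝ} {E : Set ℝ} (h : FG F G E) {x : ℝ} (hx : PR E x) : PL E (G x) := by
  obtain ⟨δ, hδ, h1, h2⟩ := hx
  obtain ⟨η, hη, h3⟩ := Metric.continuous_iff.1 h.Gc (G x) δ hδ
  have h4 : ∀ y, |y - G x| < η → |G y - x| < δ := by
    intro y hy
    have := h3 y (by rw [Real.dist_eq]; exact hy)
    rw [h.Gi, Real.dist_eq] at this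
    exact this
  refine ⟨η, hη, ?_, ?_⟩
  · intro y hy1 hy2
    have h5 := h4 y (by rw [abs_lt]; constructor <;> linarith)
    have h6 : x < G y := by have := h.Ga hy2; rwa [h.Gi] at this
    rw [abs_lt] at h5
    have h7 := h.acc (h1 (G y) h6 (by linarith))
    rwa [h.Gi] at h7
  · intro y hy1 hy2 hacc
    have h5 := h4 y (by rw [abs_lt]; constructor <;> linarith)
    have h6 : G y < x := by have := h.Ga hy1; rwa [h.Gi] at this
    rw [abs_lt] at h5
    exact h2 (G y) (by linarith) h6 (h.acc hacc)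

lemma pl_pr {E : Set ℝ} {x : ℝ} (h1 : PL E x) (h2 : PR E x) : False := by
  obtain ⟨δ, hδ, -, h3⟩ := h1
  obtain ⟨η, hη, h4, -⟩ := h2
  have h5 : 0 < min δ η := lt_min hδ hη
  have h6 := min_le_left δ η
  have h7 := min_le_right δ η
  exact h3 (x + min δ η / 2) (by linarith) (by linarith)
    (h4 (x + min δ η / 2) (by linarith) (by linarith))

lemma acc_shift {E : Set ℝ} (hE : ∀ (x : ℝ) (k : ℤ), x + k * (2 * π) ∈ E ↔ x ∈ E) {z : ℝ}
    (k : ℤ) (h : Acc E (z + k * (2 * π))) : Acc E z := by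
  rcases h with h | h
  · left
    intro δ hδ
    obtain ⟨y, hy, h1, h2⟩ := h δ hδ
    refine ⟨y - k * (2 * π), ?_, by linarith, by linarith⟩
    rw [← hE _ k]
    have : y - k * (2 * π) + k * (2 * π) = y := by ring
    rwa [this]
  · right
    intro δ hδ
    obtain ⟨y, hy, h1, h2⟩ := h δ hδ
    refine ⟨y - k * (2 * π), ?_, by linarith, by linarith⟩
    rw [← hE _ k]
    have : y - k * (2 * π) + k * (2 * π) = y := by ring
    rwa [this]

lemma acc_shift' {E : Set ℝ} (hE : ∀ (x : ℝ) (k : ℤ), x + k * (2 * π) ∈ E ↔ x ∈ E) {z : ℝ}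
    (k : ℤ) (h : Acc E z) : Acc E (z + k * (2 * π)) := by
  apply acc_shift hE (-k)
  have : z + k * (2 * π) + ((-k : ℤ) : ℝ) * (2 * π) = z := by push_cast; ring
  rwa [this]

lemma pl_shift {E : Set ℝ} (hE : ∀ (x : ℝ) (k : ℤ), x + k * (2 * π) ∈ E ↔ x ∈ E) {z : ℝ}
    (k : ℤ) (h : PL E (z + k * (2 * π))) : PL E z := by
  obtain ⟨δ, hδ, h1, h2⟩ := h
  refine ⟨δ, hδ, ?_, ?_⟩
  · intro y hy1 hy2
    exact acc_shift hE k (h1 (y + k * (2 * π)) (by linarith) (by linarith))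
  · intro y hy1 hy2 hy3
    exact h2 (y + k * (2 * π)) (by linarith) (by linarith) (acc_shift' hE k hy3)

/-! ### orbits -/

lemma orb_even (F G : ℝ → ℝ) (x : ℝ) (i : ℕ) :
    orb F G x (2 * i) = (fun θ => G (F θ))^[i] x ∧
      orb F G x (2 * i + 1) = F ((fun θ => G (F θ))^[i] x) := by
  induction i with
  | zero => simp [orb]
  | succ i ih =>
    obtain ⟨h1, h2⟩ := ih
    have h3 : orb F G x (2 * (i + 1)) = (fun θ => G (F θ))^[i + 1] x := by
      rw [Function.iterate_succ_apply']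
      have h4 : 2 * (i + 1) = (2 * i + 1) + 1 := by ring
      rw [h4, orb, if_neg (by simp), h2]
    refine ⟨h3, ?_⟩
    rw [orb, if_pos (by simp), h3]

lemma orb_acc {F₀ G₀ F₁ G₁ : ℝ → ℝ} {E : Set ℝ} (h0 : FG F₀ G₀ E) (h1 : FG F₁ G₁ E)
    (hE : IsClosed E) {z : ℝ} (hz : Acc E z) (n : ℕ) :
    orb F₀ F₁ z n = orb G₀ G₁ z n ∧ Acc E (orb F₀ F₁ z n) := by
  induction n with
  | zero => exact ⟨rfl, hz⟩
  | succ n ih =>
    obtain ⟨h2, h3⟩ := ih
    simp only [orb]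
    by_cases hn : Even n
    · rw [if_pos hn, if_pos hn, h0.eq hE h3, h2]
      rw [h2] at h3
      exact ⟨rfl, h0.acc h3⟩
    · rw [if_neg hn, if_neg hn, h1.eq hE h3, h2]
      rw [h2] at h3
      exact ⟨rfl, h1.acc h3⟩

lemma orb_cont {F G : ℝ → ℝ} (hF : Continuous F) (hG : Continuous G) (n : ℕ) :
    Continuous (fun x => orb F G x n) := by
  induction n with
  | zero => exact continuous_id
  | succ n ih =>
    simp only [orb]
    by_cases hn : Even n
    · simp only [hn, if_true]; exact hF.comp ih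
    · simp only [hn, if_false]; exact hG.comp ih

lemma fx_sin (G : ℝ → ℝ) (x : ℝ) : Fx G x ↔ Real.sin ((G x - x) / 2) = 0 := by
  rw [Real.sin_eq_zero_iff]
  constructor
  · rintro ⟨k, hk⟩
    exact ⟨k, by rw [hk]; ring⟩
  · rintro ⟨k, hk⟩
    exact ⟨k, by linarith⟩

lemma nfx_open {G : ℝ → ℝ} (hG : Continuous G) : IsOpen {x | ¬ Fx G x} := by
  have h1 : {x | ¬ Fx G x} = {x | Real.sin ((G x - x) / 2) ≠ 0} := by
    ext x; simp only [mem_ofPred_eq, fx_sin, ne_eq]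
  rw [h1]
  exact isOpen_ne_fun (by fun_prop) continuous_const

lemma orb_near {F₀ G₀ F₁ G₁ : ℝ → ℝ} {E : Set ℝ} (h0 : FG F₀ G₀ E) (h1 : FG F₁ G₁ E)
    {z : ℝ} (N : ℕ) (hz : ∀ n < N, ¬ Fx (if Even n then G₀ else G₁) (orb G₀ G₁ z n)) :
    ∀ᶠ x in 𝓝 z, x ∈ E → ∀ n ≤ N, orb F₀ F₁ x n = orb G₀ G₁ x n ∧ orb G₀ G₁ x n ∈ E := by
  induction N with
  | zero =>
    refine Eventually.of_forall (fun x hx n hn => ?_)
    have : n = 0 := by omega
    subst this
    exact ⟨rfl, hx⟩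
  | succ N ih =>
    have h2 := ih (fun n hn => hz n (by omega))
    have h3 := hz N (by omega)
    have h4 : Continuous (if Even N then G₀ else G₁) := by
      split_ifs
      · exact h0.Gc
      · exact h1.Gc
    have h5 : ∀ᶠ x in 𝓝 z, ¬ Fx (if Even N then G₀ else G₁) (orb G₀ G₁ x N) := by
      have h6 := (orb_cont h0.Gc h1.Gc N).continuousAt (x := z)
      exact h6.eventually ((nfx_open h4).mem_nhds h3)
    filter_upwards [h2, h5] with x hx1 hx2 hxE n hn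
    rcases Nat.lt_or_ge n (N + 1) with hn' | hn'
    · exact hx1 hxE n (by omega)
    · have hnN : n = N + 1 := by omega
      subst hnN
      obtain ⟨h7, h8⟩ := hx1 hxE N le_rfl
      simp only [orb]
      by_cases hN : Even N
      · rw [if_pos hN] at hx2
        rw [if_pos hN, if_pos hN, h7, h0.e2 _ h8 hx2]
        exact ⟨rfl, h0.e1 _ h8⟩
      · rw [if_neg hN] at hx2
        rw [if_neg hN, if_neg hN, h7, h1.e2 _ h8 hx2]
        exact ⟨rfl, h1.e1 _ h8⟩

/-- The next point of `E` on the right. -/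
lemma gapR {E : Set ℝ} (hE : IsClosed E) (hp : ∀ x, x ∈ E ↔ x + 2 * π ∈ E) {w : ℝ} (hw : w ∈ E)
    (h : ¬ AccR E w) : ∃ b ∈ E, w < b ∧ Ioo w b ∩ E = ∅ := by
  unfold AccR at h
  push Not at h
  obtain ⟨δ, hδ, h1⟩ := h
  have hpi := Real.pi_pos
  have h2 : w + 2 * π ∈ E := (hp w).1 hw
  have h3 : w + δ ≤ w + 2 * π := h1 _ h2 (by linarith)
  set S := E ∩ Ici (w + δ) with hS
  have hSc : IsClosed S := hE.inter isClosed_Ici
  have hSn : S.Nonempty := ⟨w + 2 * π, h2, h3⟩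
  have hSb : BddBelow S := ⟨w + δ, fun y hy => hy.2⟩
  have h4 := hSc.csInf_mem hSn hSb
  refine ⟨sInf S, h4.1, ?_, ?_⟩
  · have : w + δ ≤ sInf S := h4.2
    linarith
  · ext y
    simp only [mem_inter_iff, mem_Ioo, mem_empty_iff_false, iff_false, not_and, and_imp]
    intro hy1 hy2 hy3
    have h5 : y ∈ S := ⟨hy3, h1 y hy3 hy1⟩
    have := csInf_le hSb h5
    linarith

lemma lv_mono {C : Set ℂ} {φ κ κ' x : ℝ} (h : Lv C φ κ x) (hk : κ' ≤ κ) : Lv C φ κ' x := by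
  obtain ⟨⟨z, hz, h1⟩, ⟨w, hw, h2⟩⟩ := h
  exact ⟨⟨z, hz, by linarith⟩, ⟨w, hw, by linarith⟩⟩

lemma gd_ex {C : Set ℂ} {φ₀ φ₁ z : ℝ} (N : ℕ)
    (h : ∀ n < N, ∃ κ > 0, Lv C (if Even n then φ₀ else φ₁) κ (orbC C φ₀ φ₁ z n)) :
    ∃ κ > 0, ∀ n < N, Lv C (if Even n then φ₀ else φ₁) κ (orbC C φ₀ φ₁ z n) := by
  induction N with
  | zero => exact ⟨1, one_pos, fun n hn => absurd hn (by omega)⟩
  | succ N ih =>
    obtain ⟨κ, hκ, h1⟩ := ih (fun n hn => h n (by omega))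
    obtain ⟨κ', hκ', h2⟩ := h N (by omega)
    refine ⟨min κ κ', lt_min hκ hκ', fun n hn => ?_⟩
    rcases Nat.lt_or_ge n N with hn' | hn'
    · exact lv_mono (h1 n hn') (min_le_left _ _)
    · have : n = N := by omega
      subst this
      exact lv_mono h2 (min_le_right _ _)

lemma anti_int {F : ℝ → ℝ} (hF : ∀ θ, F (θ + 2 * π) = F θ - 2 * π) (k : ℤ) (x : ℝ) :
    F (x + k * (2 * π)) = F x - k * (2 * π) := by
  have hnat : ∀ (n : ℕ) (x : ℝ), F (x + n * (2 * π)) = F x - n * (2 * π) := by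
    intro n
    induction n with
    | zero => intro x; simp
    | succ n ih =>
      intro x
      have h1 : x + ((n + 1 : ℕ) : ℝ) * (2 * π) = (x + n * (2 * π)) + 2 * π := by
        push_cast; ring
      rw [h1, hF, ih]; push_cast; ring
  obtain ⟨n, hn | hn⟩ := k.eq_nat_or_neg
  · subst hn; simpa using hnat n x
  · subst hn
    have h1 := hnat n (x + ((-(n : ℤ) : ℤ) : ℝ) * (2 * π))
    have h2 : x + ((-(n : ℤ) : ℤ) : ℝ) * (2 * π) + (n : ℝ) * (2 * π) = x := by push_cast; ring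
    rw [h2] at h1
    push_cast
    push_cast at h1
    linarith

lemma it_int {F₀ F₁ : ℝ → ℝ} (h0 : ∀ θ, F₀ (θ + 2 * π) = F₀ θ - 2 * π)
    (h1 : ∀ θ, F₁ (θ + 2 * π) = F₁ θ - 2 * π) (i : ℕ) (k : ℤ) (x : ℝ) :
    (fun θ => F₁ (F₀ θ))^[i] (x + k * (2 * π)) = (fun θ => F₁ (F₀ θ))^[i] x + k * (2 * π) := by
  induction i with
  | zero => rfl
  | succ i ih =>
    rw [Function.iterate_succ_apply', Function.iterate_succ_apply', ih]
    rw [anti_int h0]
    have h2 : F₀ ((fun θ => F₁ (F₀ θ))^[i] x) - k * (2 * π) =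
        F₀ ((fun θ => F₁ (F₀ θ))^[i] x) + ((-k : ℤ) : ℝ) * (2 * π) := by push_cast; ring
    rw [h2, anti_int h1]
    push_cast; ring

lemma fx_int {F : ℝ → ℝ} (hF : ∀ θ, F (θ + 2 * π) = F θ - 2 * π) (k : ℤ) (x : ℝ)
    (h : Fx F (x + k * (2 * π))) : Fx F x := by
  obtain ⟨j, hj⟩ := h
  rw [anti_int hF] at hj
  exact ⟨j + 2 * k, by push_cast; linarith⟩

/-- Finitely many starting points in a period whose chain hits a tip of the second direction. -/
lemma fin_tips {F₀ F₁ : ℝ → ℝ} (a0 : StrictAnti F₀) (a1 : StrictAnti F₁) (i : ℕ) :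
    {a : ℝ | a ∈ Ico 0 (2 * π) ∧ Fx F₁ (F₀ ((fun θ => F₁ (F₀ θ))^[i] a))}.Finite := by
  have hpi := Real.pi_pos
  have hT : StrictMono (fun θ => F₁ (F₀ θ)) := fun x y hxy => a1 (a0 hxy)
  have hTi : StrictMono ((fun θ => F₁ (F₀ θ))^[i]) := hT.iterate i
  set y : ℝ → ℝ := fun a => F₀ ((fun θ => F₁ (F₀ θ))^[i] a) with hy
  have hya : StrictAnti y := fun a b hab => a0 (hTi hab)
  set g : ℝ → ℝ := fun a => F₁ (y a) - y a with hg
  have hgm : StrictMono g := by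
    intro a b hab
    have h1 := hya hab
    have h2 := a1 h1
    simp only [hg]
    linarith
  set K1 : ℤ := ⌊g 0 / (2 * π)⌋ with hK1
  set K2 : ℤ := ⌈g (2 * π) / (2 * π)⌉ with hK2
  have hfin : ((fun k : ℤ => (k : ℝ) * (2 * π)) '' (Icc K1 K2)).Finite :=
    (Set.finite_Icc K1 K2).image _
  refine (hfin.preimage (hgm.injective.injOn)).subset ?_
  rintro a ⟨⟨ha1, ha2⟩, k, hk⟩
  refine ⟨k, ⟨?_, ?_⟩, ?_⟩
  · have h1 : g 0 ≤ g a := hgm.monotone ha1
    have h2 : g a = k * (2 * π) := by simp only [hg, hy]; linarith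
    have h3 : g 0 / (2 * π) ≤ k := by
      rw [div_le_iff₀ (by positivity)]; linarith
    have h4 : ((K1 : ℤ) : ℝ) ≤ k := (Int.floor_le _).trans h3
    exact_mod_cast h4
  · have h1 : g a ≤ g (2 * π) := hgm.monotone ha2.le
    have h2 : g a = k * (2 * π) := by simp only [hg, hy]; linarith
    have h3 : (k : ℝ) ≤ g (2 * π) / (2 * π) := by
      rw [le_div_iff₀ (by positivity)]; linarith
    have h4 : (k : ℝ) ≤ ((K2 : ℤ) : ℝ) := h3.trans (Int.le_ceil _)
    exact_mod_cast h4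
  · simp only [hg, hy]; linarith

theorem t_a8d (hFLX : FLXStmt) (hFLB : FLBStmt) (hWFL : WFLStmt) (hARC : ARCStmt)
    (hCMP : CMPStmt) (hGAP : GAPStmt) (hDSP : DSPStmt) (hLD1 : LD1Stmt) (hLDF : LDFStmt)
    (hA8T : A8TStmt) : A8DStmt := by
  intro C C' φ₀ φ₁ hP hne hflat hdiff htip
  have hpi := Real.pi_pos
  set E : Set ℝ := EE C C' with hE
  have hEc : IsClosed E := EE_closed hP.b hP.b'
  have hEp : ∀ x, x ∈ E ↔ x + 2 * π ∈ E := fun x => EE_periodic x
  have hEu : E ≠ univ := EE_ne_univ hP.b hP.b' hne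
  have hEi : ∀ (x : ℝ) (k : ℤ), x + k * (2 * π) ∈ E ↔ x ∈ E := by
    have hnat : ∀ (n : ℕ) (x : ℝ), x + n * (2 * π) ∈ E ↔ x ∈ E := by
      intro n
      induction n with
      | zero => intro x; simp
      | succ n ih =>
        intro x
        have h1 : x + ((n + 1 : ℕ) : ℝ) * (2 * π) = (x + n * (2 * π)) + 2 * π := by
          push_cast; ring
        rw [h1, ← hEp, ih]
    intro x k
    obtain ⟨n, hn | hn⟩ := k.eq_nat_or_neg
    · subst hn; simpa using hnat n x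
    · subst hn
      rw [← hnat n (x + ((-(n : ℤ) : ℤ) : ℝ) * (2 * π))]
      have h2 : x + ((-(n : ℤ) : ℤ) : ℝ) * (2 * π) + (n : ℝ) * (2 * π) = x := by
        push_cast; ring
      rw [h2]
  -- flips
  obtain ⟨hWb, hWn0, -, w01, w02, -, w03, w04, -⟩ := hWFL C C' φ₀ hP.b hP.b' hP.x0 hP.n0
  obtain ⟨-, hWn1, -, w11, w12, -, w13, w14, -⟩ := hWFL C C' φ₁ hP.b hP.b' hP.x1 hP.n1
  have iC0 := (hFLX C φ₀ hP.b hP.n0).1
  have iC1 := (hFLX C φ₁ hP.b hP.n1).1
  have iW0 := (hFLX (C ∩ C') φ₀ hWb hWn0).1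
  have iW1 := (hFLX (C ∩ C') φ₁ hWb hWn1).1
  have bC0 := hFLB C φ₀ hP.b hP.n0
  have bC1 := hFLB C φ₁ hP.b hP.n1
  have bW0 := hFLB (C ∩ C') φ₀ hWb hWn0
  have bW1 := hFLB (C ∩ C') φ₁ hWb hWn1
  have f0 : FG (fl C φ₀) (fl (C ∩ C') φ₀) E :=
    { Fa := iC0.anti, Fi := iC0.inv, Fp := iC0.per, Fc := bC0.1, Ga := iW0.anti, Gi := iW0.inv,
      Gp := iW0.per, Gc := bW0.1, e1 := w01, e2 := fun x hx h => (w02 x hx h).1,
      e3 := w03, e4 := w04 }
  have f1 : FG (fl C φ₁) (fl (C ∩ C') φ₁) E :=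
    { Fa := iC1.anti, Fi := iC1.inv, Fp := iC1.per, Fc := bC1.1, Ga := iW1.anti, Gi := iW1.inv,
      Gp := iW1.per, Gc := bW1.1, e1 := w11, e2 := fun x hx h => (w12 x hx h).1,
      e3 := w13, e4 := w14 }
  have hTTC : TT C φ₀ φ₁ = fun θ => fl C φ₁ (fl C φ₀ θ) := rfl
  have hTTW : TT (C ∩ C') φ₀ φ₁ = fun θ => fl (C ∩ C') φ₁ (fl (C ∩ C') φ₀ θ) := rfl
  -- rotation number
  obtain ⟨M, v, c₀, c₁, hA⟩ := hARC C C' φ₀ φ₁ hP hne
  have hrot := (hCMP C C' φ₀ φ₁ M v c₀ c₁ hP hA).1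
  set p : ℤ := c₁ - c₀ with hp
  have hp0 : 0 < p := by have := hA.e2; omega
  have hpM : p < (M : ℤ) := by have := hA.eM; omega
  have hM0 : 0 < M := by
    have : (0 : ℤ) < M := lt_trans hp0 hpM
    exact_mod_cast this
  have hgap : ∀ w ∈ E, ¬ AccR E w → (TT (C ∩ C') φ₀ φ₁)^[M] w = w + 2 * π * p := by
    intro w hw h
    obtain ⟨b, hb, hwb, hempty⟩ := gapR hEc hEp hw h
    exact (hGAP C C' φ₀ φ₁ hP hne p M hM0 hrot w hw b hb hwb hempty).1
  have hTWc : Continuous ((TT (C ∩ C') φ₀ φ₁)^[M]) := by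
    have : Continuous (TT (C ∩ C') φ₀ φ₁) := (bW0.2.2.2.2.2 φ₁ hWn1).2
    exact this.iterate M
  -- closed chain at right end points of the non accumulation set
  have hclosed : ∀ z, Acc E z → (∃ δ > 0, ∀ y, z < y → y < z + δ → ¬ Acc E y) →
      (TT (C ∩ C') φ₀ φ₁)^[M] z = z + 2 * π * p := by
    intro z hz hV
    obtain ⟨δ, hδ, hV⟩ := hV
    by_cases hR : AccR E z
    · have hcl : IsClosed {x : ℝ | (TT (C ∩ C') φ₀ φ₁)^[M] x = x + 2 * π * p} :=
        isClosed_eq hTWc (by fun_prop)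
      have hmem : z ∈ closure {x : ℝ | (TT (C ∩ C') φ₀ φ₁)^[M] x = x + 2 * π * p} := by
        rw [Metric.mem_closure_iff]
        intro ε hε
        obtain ⟨y, hy, h1, h2⟩ := hR (min ε δ) (lt_min hε hδ)
        have h3 := min_le_left ε δ
        have h4 := min_le_right ε δ
        refine ⟨y, hgap y hy ?_, ?_⟩
        · intro h5
          exact hV y h1 (by linarith) (Or.inl h5)
        · rw [dist_comm, Real.dist_eq, abs_lt]
          constructor <;> linarith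
      rw [hcl.closure_eq] at hmem
      exact hmem
    · exact hgap z (acc_mem hEc hz) hR
  have hchain : ∀ z, Acc E z → (TT C φ₀ φ₁)^[M] z = (TT (C ∩ C') φ₀ φ₁)^[M] z := by
    intro z hz
    have h1 := (orb_acc f0 f1 hEc hz (2 * M)).1
    rw [(orb_even _ _ z M).1, (orb_even _ _ z M).1] at h1
    exact h1
  -- the main lemma
  have hK : ∀ z, Acc E z → (∃ δ > 0, ∀ y, z < y → y < z + δ → ¬ Acc E y) →
      ∃ i < M, Fx (fl C φ₁) (fl C φ₀ ((fun θ => fl C φ₁ (fl C φ₀ θ))^[i] z)) := by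
    intro z hz hV
    by_contra hno
    push Not at hno
    have hclW := hclosed z hz hV
    have hclC : (TT C φ₀ φ₁)^[M] z = z + 2 * π * p := by rw [hchain z hz, hclW]
    have hdsp : dsp C φ₀ φ₁ p M z = 0 := by unfold dsp; rw [hclC]; ring
    -- no tips of the first direction
    have hno0 : ∀ i < M, ¬ Fx (fl C φ₀) ((fun θ => fl C φ₁ (fl C φ₀ θ))^[i] z) := by
      intro i hi hfx
      refine htip p M _ hp0 hpM hfx ?_
      unfold dsp
      rw [hTTC, ← Function.iterate_add_apply, add_comm M i, Function.iterate_add_apply]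
      rw [hTTC] at hclC
      rw [hclC]
      have h1 := it_int iC0.per iC1.per i p z
      have h2 : z + 2 * π * (p : ℝ) = z + p * (2 * π) := by ring
      rw [h2, h1]; ring
    have hnf : ∀ n < 2 * M, ¬ Fx (if Even n then fl C φ₀ else fl C φ₁) (orbC C φ₀ φ₁ z n) := by
      intro n hn
      unfold orbC
      rcases Nat.even_or_odd' n with ⟨i, hi | hi⟩
      · subst hi
        rw [if_pos (by simp), (orb_even _ _ z i).1]
        exact hno0 i (by omega)
      · subst hi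
        rw [if_neg (by simp), (orb_even _ _ z i).2]
        exact hno i (by omega)
    have hgd : ∃ κ > 0, Gd C φ₀ φ₁ M κ z := by
      apply gd_ex
      intro n hn
      have h1 := hnf n hn
      by_cases hev : Even n
      · rw [if_pos hev] at h1 ⊢
        exact (bC0.2.2.2.2.1 _).1 h1
      · rw [if_neg hev] at h1 ⊢
        exact (bC1.2.2.2.2.1 _).1 h1
    have hmemE : ∀ n ≤ 2 * M, orbC C φ₀ φ₁ z n ∈ EE C C' := fun n _ =>
      acc_mem hEc (orb_acc f0 f1 hEc hz n).2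
    obtain ⟨δ₁, hδ₁, B, hB, hdspB⟩ := hDSP C C' φ₀ φ₁ p M z hP hM0 hrot hgd hmemE
    -- points of E on the right are closed
    have hEz : ∀ᶠ x in 𝓝[>] z, x ∈ E → dsp C φ₀ φ₁ p M x = 0 := by
      have hnG : ∀ n < 2 * M, ¬ Fx (if Even n then fl (C ∩ C') φ₀ else fl (C ∩ C') φ₁)
          (orb (fl (C ∩ C') φ₀) (fl (C ∩ C') φ₁) z n) := by
        intro n hn hfx
        have h1 := hnf n hn
        obtain ⟨h2, h3⟩ := orb_acc f0 f1 hEc hz n
        apply h1
        unfold orbC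
        rw [← h2] at hfx
        by_cases hev : Even n
        · rw [if_pos hev] at hfx ⊢
          obtain ⟨k, hk⟩ := hfx
          exact ⟨k, by rw [f0.eq hEc h3, hk]⟩
        · rw [if_neg hev] at hfx ⊢
          obtain ⟨k, hk⟩ := hfx
          exact ⟨k, by rw [f1.eq hEc h3, hk]⟩
      have hnear := (orb_near f0 f1 (2 * M) hnG).filter_mono
        (nhdsWithin_le_nhds (s := Ioi z))
      obtain ⟨δ, hδ, hV⟩ := hV
      have hI : Ioo z (z + δ) ∈ 𝓝[>] z := Ioo_mem_nhdsGT (by linarith)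
      filter_upwards [hnear, hI] with x hx hxI hxE
      have h1 := (hx hxE (2 * M) le_rfl).1
      rw [(orb_even _ _ x M).1, (orb_even _ _ x M).1] at h1
      have h2 : (TT C φ₀ φ₁)^[M] x = (TT (C ∩ C') φ₀ φ₁)^[M] x := h1
      have h3 : ¬ AccR E x := fun h => hV x hxI.1 hxI.2 (Or.inl h)
      unfold dsp
      rw [h2, hgap x hxE h3]; ring
    have hlit : (fun x => rad C' x - rad C x) =o[𝓝[>] z] (fun x => x - z) := by
      by_cases hR : AccR E z
      · exact (hLD1 C C' z hP.b hP.b' (acc_mem hEc hz)).1 hR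
      · have hL : AccL E z := hz.resolve_left hR
        have hnf0 : ¬ Fx (fl C φ₀) z := hno0 0 hM0
        by_cases hd : DifferentiableAt ℝ (xr C φ₀) (tc φ₀ (pt C z))
        · exact (hLDF C C' φ₀ z hP.b hP.b' hP.x0 hP.n0 (acc_mem hEc hz) hnf0 hd
            (Or.inr hL)).mono nhdsWithin_le_nhds
        · exact absurd hdsp (hdiff p M z hM0 hnf0 hd hgd)
    refine hflat p M z ⟨hM0, hgd, hdsp, ?_⟩
    refine IsBigO.trans_isLittleO (g := fun x => rad C' x - rad C x) ?_ hlit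
    refine IsBigO.of_bound B ?_
    have hI : Ioo z (z + δ₁) ∈ 𝓝[>] z := Ioo_mem_nhdsGT (by linarith)
    filter_upwards [hEz, hI] with x hx hxI
    by_cases hxE : x ∈ E
    · rw [hx hxE, norm_zero]; positivity
    · rw [Real.norm_eq_abs, Real.norm_eq_abs]
      exact hdspB x (by rw [abs_lt]; constructor <;> linarith [hxI.1, hxI.2]) hxE
  -- conclusion
  by_contra hint
  have hint' : (interior E).Nonempty := nonempty_iff_ne_empty.2 hint
  set A : Set ℝ := ⋃ i ∈ Finset.range M,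
    {a : ℝ | a ∈ Ico 0 (2 * π) ∧ Fx (fl C φ₁) (fl C φ₀ ((fun θ => fl C φ₁ (fl C φ₀ θ))^[i] a))}
    with hAdef
  have hAfin : A.Finite := by
    rw [hAdef]
    exact Set.Finite.biUnion (Finset.finite_toSet _) (fun i _ => fin_tips iC0.anti iC1.anti i)
  obtain ⟨c, a, hca, hIcc, δ, hδ, hV⟩ := hA8T E A hEc hEp hEu hint' hAfin (by
    intro z hz hV
    obtain ⟨i, hi, hfx⟩ := hK z hz hV
    set k : ℤ := ⌊z / (2 * π)⌋ with hk
    refine ⟨z - k * (2 * π), ?_, k, by ring⟩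
    rw [hAdef]
    simp only [mem_iUnion, Finset.mem_range]
    refine ⟨i, hi, ⟨?_, ?_⟩, ?_⟩
    · have h1 : (k : ℝ) ≤ z / (2 * π) := Int.floor_le _
      rw [le_div_iff₀ (by positivity)] at h1
      linarith
    · have h1 : z / (2 * π) < k + 1 := Int.lt_floor_add_one _
      rw [div_lt_iff₀ (by positivity)] at h1
      linarith
    · have h1 : z = (z - k * (2 * π)) + k * (2 * π) := by ring
      rw [h1, it_int iC0.per iC1.per, anti_int iC0.per] at hfx
      have h2 : fl C φ₀ ((fun θ => fl C φ₁ (fl C φ₀ θ))^[i] (z - k * (2 * π))) - k * (2 * π) =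
          fl C φ₀ ((fun θ => fl C φ₁ (fl C φ₀ θ))^[i] (z - k * (2 * π))) +
            ((-k : ℤ) : ℝ) * (2 * π) := by push_cast; ring
      rw [h2] at hfx
      exact fx_int iC1.per (-k) _ hfx)
  have hacc : Acc E a := by
    right
    intro η hη
    refine ⟨max c (a - η / 2), hIcc ⟨le_max_left _ _, max_le hca.le (by linarith)⟩, ?_, ?_⟩
    · exact lt_of_lt_of_le (by linarith) (le_max_right _ _)
    · exact max_lt hca (by linarith)
  have hPL : PL E a := by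
    refine ⟨min δ (a - c), lt_min hδ (by linarith), ?_, ?_⟩
    · intro y hy1 hy2
      have h1 := min_le_right δ (a - c)
      left
      intro η hη
      refine ⟨min a (y + η / 2), hIcc ⟨?_, min_le_left _ _⟩, ?_, ?_⟩
      · exact le_min hca.le (by linarith)
      · exact lt_min hy2 (by linarith)
      · exact lt_of_le_of_lt (min_le_right _ _) (by linarith)
    · intro y hy1 hy2
      have h1 := min_le_left δ (a - c)
      exact hV y hy1 (by linarith)
  obtain ⟨i, hi, hfx⟩ := hK a hacc ⟨δ, hδ, hV⟩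
  -- transport of the local picture
  have hpic : ∀ j : ℕ, PL E (orb (fl (C ∩ C') φ₀) (fl (C ∩ C') φ₁) a (2 * j)) ∧
      PR E (orb (fl (C ∩ C') φ₀) (fl (C ∩ C') φ₁) a (2 * j + 1)) := by
    intro j
    induction j with
    | zero => exact ⟨hPL, f0.pl hPL⟩
    | succ j ih =>
      obtain ⟨-, h2⟩ := ih
      have h3 : PL E (orb (fl (C ∩ C') φ₀) (fl (C ∩ C') φ₁) a (2 * (j + 1))) := by
        have h4 : 2 * (j + 1) = (2 * j + 1) + 1 := by ring
        rw [h4, orb, if_neg (by simp)]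
        exact f1.pr h2
      refine ⟨h3, ?_⟩
      rw [orb, if_pos (by simp)]
      exact f0.pl h3
  obtain ⟨-, h2⟩ := hpic i
  obtain ⟨h3, h4⟩ := orb_acc f0 f1 hEc hacc (2 * i + 1)
  have h5 : Fx (fl C φ₁) (orb (fl C φ₀) (fl C φ₁) a (2 * i + 1)) := by
    rw [(orb_even _ _ a i).2]; exact hfx
  have h6 := (f1.e3 _ (acc_mem hEc h4) h5).1
  rw [h3] at h6
  obtain ⟨k, hk⟩ := h6
  have h7 := f1.pr h2
  rw [hk] at h7
  exact pl_pr (pl_shift hEi k h7) h2

end Pool.XR2
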