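import Pool.Agent.H52.XR2.S1

set_option autoImplicit false

open MeasureTheory Set Filter Topology Metric Asymptotics
open scoped Real ENNReal

namespace Pool.XR2

open Pool.Agent.H45.XR

/-- Shift of the index by multiples of `M`. -/
lemma cmp_per {M : ℕ} {v : ℤ → ℝ} (hper : ∀ x, v (x + M) = v x + 2 * π) :
    ∀ (k : ℤ) (x : ℤ), v (x + k * M) = v x + k * (2 * π) := by
  have hnat : ∀ (k : ℕ) (x : ℤ), v (x + k * M) = v x + k * (2 * π) := by
    intro k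
    induction k with
    | zero => intro x; simp
    | succ k ih =>
      intro x
      have h1 : x + ((k + 1 : ℕ) : ℤ) * M = (x + k * M) + M := by push_cast; ring
      rw [h1, hper, ih x]; push_cast; ring
  intro k x
  obtain ⟨n, hn | hn⟩ := k.eq_nat_or_neg
  · subst hn; simpa using hnat n x
  · subst hn
    have h1 := hnat n (x + -(n : ℤ) * M)
    have h2 : x + -(n : ℤ) * M + (n : ℤ) * M = x := by ring
    rw [h2] at h1
    push_cast
    linarith

/-- A vertex fixed modulo `2π` has `M ∣ c - 2 i`. -/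
lemma cmp_fix {M : ℕ} {v : ℤ → ℝ} (hmono : StrictMono v)
    (hper : ∀ x, v (x + M) = v x + 2 * π) {G : ℝ → ℝ} {c : ℤ}
    (hG : ∀ x, G (v x) = v (c - x)) (i : ℤ) (h : Fx G (v i)) : (M : ℤ) ∣ 2 * i - c := by
  obtain ⟨k, hk⟩ := h
  rw [hG, ← cmp_per hper k i] at hk
  have h1 := hmono.injective hk
  exact ⟨-k, by linarith⟩

/-- The flip of `C` at a vertex: between the two neighbouring values. -/
lemma cmp_flip {M : ℕ} (hM : 3 ≤ M) {v : ℤ → ℝ} (hmono : StrictMono v)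
    (hper : ∀ x, v (x + M) = v x + 2 * π) {F G : ℝ → ℝ} {c : ℤ} (hF : StrictAnti F)
    (hG : ∀ x, G (v x) = v (c - x)) (hFG : ∀ x, ¬ Fx G (v x) → F (v x) = G (v x)) :
    (∀ i : ℤ, ¬ ((M : ℤ) ∣ 2 * i - c) → F (v i) = v (c - i)) ∧
    (∀ i : ℤ, v (c - i - 1) ≤ F (v i)) ∧ (∀ i : ℤ, F (v i) ≤ v (c - i + 1)) := by
  have h1 : ∀ i : ℤ, ¬ ((M : ℤ) ∣ 2 * i - c) → F (v i) = v (c - i) := by
    intro i hi
    have h2 : ¬ Fx G (v i) := fun h => hi (cmp_fix hmono hper hG i h)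
    rw [hFG i h2, hG]
  have h3 : ∀ i : ℤ, (M : ℤ) ∣ 2 * i - c → ¬ ((M : ℤ) ∣ 2 * (i + 1) - c) := by
    intro i hi hi'
    have h4 : (M : ℤ) ∣ 2 := by
      have := Int.dvd_sub hi' hi
      have h5 : 2 * (i + 1) - c - (2 * i - c) = 2 := by ring
      rwa [h5] at this
    have := Int.le_of_dvd (by norm_num) h4
    omega
  have h3' : ∀ i : ℤ, (M : ℤ) ∣ 2 * i - c → ¬ ((M : ℤ) ∣ 2 * (i - 1) - c) := by
    intro i hi hi'
    apply h3 (i - 1) hi'
    have h5 : i - 1 + 1 = i := by ring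
    rwa [h5]
  refine ⟨h1, ?_, ?_⟩
  · intro i
    by_cases hi : (M : ℤ) ∣ 2 * i - c
    · have h6 := h1 (i + 1) (h3 i hi)
      have h7 : F (v (i + 1)) < F (v i) := hF (hmono (by omega))
      rw [h6] at h7
      have h8 : c - (i + 1) = c - i - 1 := by ring
      rw [h8] at h7
      exact h7.le
    · rw [h1 i hi]
      exact hmono.monotone (by omega)
  · intro i
    by_cases hi : (M : ℤ) ∣ 2 * i - c
    · have h6 := h1 (i - 1) (h3' i hi)
      have h7 : F (v i) < F (v (i - 1)) := hF (hmono (by omega))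
      rw [h6] at h7
      have h8 : c - (i - 1) = c - i + 1 := by ring
      rw [h8] at h7
      exact h7.le
    · rw [h1 i hi]
      exact hmono.monotone (by omega)

/-- Counting function: `(2 i - 1 - c) / M` jumps at the solutions of `M ∣ 2 i - c`. -/
lemma cmp_cnt {M : ℕ} (hM : 0 < M) (c i j : ℤ) (hij : i < j) :
    (2 * i - 1 - c) / (M : ℤ) ≤ (2 * j - 1 - c) / (M : ℤ) ∧
    ((M : ℤ) ∣ 2 * i - c → (2 * i - 1 - c) / (M : ℤ) + 1 ≤ (2 * j - 1 - c) / (M : ℤ)) := by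
  have hM' : (0 : ℤ) < M := by exact_mod_cast hM
  refine ⟨Int.ediv_le_ediv hM' (by omega), ?_⟩
  intro h
  obtain ⟨k, hk⟩ := h
  have h1 : (2 * i - 1 - c) / (M : ℤ) < k := by
    apply Int.ediv_lt_of_lt_mul hM'
    have : 2 * i - 1 - c = M * k - 1 := by linarith
    rw [this]; linarith [mul_comm (M : ℤ) k]
  have h2 : k ≤ (2 * j - 1 - c) / (M : ℤ) := by
    rw [Int.le_ediv_iff_mul_le hM']
    have : 2 * j - 1 - c ≥ M * k := by omega
    linarith [mul_comm (M : ℤ) k]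
  omega

theorem t_cmp (hFLB : FLBStmt) (hRHA : RHAStmt) (hWFL : WFLStmt) (hFLX : FLXStmt) :
    CMPStmt := by
  intro C C' φ₀ φ₁ M v c₀ c₁ hP hA
  have hW0 := hWFL C C' φ₀ hP.b hP.b' hP.x0 hP.n0
  have hW1 := hWFL C C' φ₁ hP.b hP.b' hP.x1 hP.n1
  obtain ⟨hWb, hWn0, -, -, hW0f, -⟩ := hW0
  obtain ⟨-, hWn1, -, -, hW1f, -⟩ := hW1
  have hTW : Deg1 (TT (C ∩ C') φ₀ φ₁) := ((hFLB _ φ₀ hWb hWn0).2.2.2.2.2 φ₁ hWn1).1
  have hTC : Deg1 (TT C φ₀ φ₁) := ((hFLB _ φ₀ hP.b hP.n0).2.2.2.2.2 φ₁ hP.n1).1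
  have he2 := hA.e2
  have heM := hA.eM
  have hM : 3 ≤ M := by omega
  have hM0 : 0 < M := by omega
  have hper := cmp_per hA.per
  have hTv : ∀ x, TT (C ∩ C') φ₀ φ₁ (v x) = v (x + (c₁ - c₀)) := by
    intro x
    unfold TT
    rw [hA.f0, hA.f1]
    congr 1; ring
  have hTit : ∀ (n : ℕ) (x : ℤ), (TT (C ∩ C') φ₀ φ₁)^[n] (v x) = v (x + n * (c₁ - c₀)) := by
    intro n
    induction n with
    | zero => intro x; simp
    | succ n ih =>
      intro x
      rw [Function.iterate_succ_apply', ih, hTv]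
      congr 1; push_cast; ring
  refine ⟨?_, ?_⟩
  · have h1 : (TT (C ∩ C') φ₀ φ₁)^[M] (v 0) = v 0 + 2 * π * ((c₁ - c₀ : ℤ) : ℝ) := by
      rw [hTit]
      have h2 : (0 : ℤ) + M * (c₁ - c₀) = 0 + (c₁ - c₀) * M := by ring
      rw [h2, hper]; ring
    exact (hRHA _ hTW).2.2.1 (v 0) (c₁ - c₀) M hM0 h1
  · intro h8
    have hF0 : StrictAnti (fl C φ₀) := (hFLX C φ₀ hP.b hP.n0).1.anti
    have hF1 : StrictAnti (fl C φ₁) := (hFLX C φ₁ hP.b hP.n1).1.anti
    obtain ⟨a1, a2, a3⟩ := cmp_flip hM hA.mono hA.per hF0 hA.f0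
      (fun x hx => (hW0f (v x) (hA.mem x) hx).1)
    obtain ⟨b1, b2, b3⟩ := cmp_flip hM hA.mono hA.per hF1 hA.f1
      (fun x hx => (hW1f (v x) (hA.mem x) hx).1)
    -- one step
    have hstep : ∀ i : ℤ, ∃ j : ℤ, TT C φ₀ φ₁ (v i) ≤ v j ∧ i < j ∧
        j - 2 * ((2 * j - 1 - c₀) / (M : ℤ)) - 2 * ((2 * j - 1 - (2 * c₀ - c₁)) / (M : ℤ)) ≤
        i - 2 * ((2 * i - 1 - c₀) / (M : ℤ)) - 2 * ((2 * i - 1 - (2 * c₀ - c₁)) / (M : ℤ)) +
          (c₁ - c₀) := by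
      intro i
      by_cases hi : (M : ℤ) ∣ 2 * i - c₀
      · refine ⟨i + (c₁ - c₀) + 2, ?_, by omega, ?_⟩
        · unfold TT
          have h1 : fl C φ₁ (fl C φ₀ (v i)) ≤ fl C φ₁ (v (c₀ - i - 1)) := hF1.antitone (a2 i)
          have h2 := b3 (c₀ - i - 1)
          have h3 : c₁ - (c₀ - i - 1) + 1 = i + (c₁ - c₀) + 2 := by ring
          rw [h3] at h2
          exact h1.trans h2
        · have h4 := (cmp_cnt hM0 c₀ i (i + (c₁ - c₀) + 2) (by omega)).2 hi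
          have h5 := (cmp_cnt hM0 (2 * c₀ - c₁) i (i + (c₁ - c₀) + 2) (by omega)).1
          omega
      · by_cases hi' : (M : ℤ) ∣ 2 * (c₀ - i) - c₁
        · refine ⟨i + (c₁ - c₀) + 1, ?_, by omega, ?_⟩
          · unfold TT
            rw [a1 i hi]
            have h2 := b3 (c₀ - i)
            have h3 : c₁ - (c₀ - i) + 1 = i + (c₁ - c₀) + 1 := by ring
            rwa [h3] at h2
          · have h6 : (M : ℤ) ∣ 2 * i - (2 * c₀ - c₁) := by
              obtain ⟨k, hk⟩ := hi'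
              exact ⟨-k, by linarith⟩
            have h4 := (cmp_cnt hM0 c₀ i (i + (c₁ - c₀) + 1) (by omega)).1
            have h5 := (cmp_cnt hM0 (2 * c₀ - c₁) i (i + (c₁ - c₀) + 1) (by omega)).2 h6
            omega
        · refine ⟨i + (c₁ - c₀), ?_, by omega, ?_⟩
          · unfold TT
            rw [a1 i hi, b1 _ hi']
            exact (congrArg v (by ring)).le
          · have h4 := (cmp_cnt hM0 c₀ i (i + (c₁ - c₀)) (by omega)).1
            have h5 := (cmp_cnt hM0 (2 * c₀ - c₁) i (i + (c₁ - c₀)) (by omega)).1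
            omega
    have hiter : ∀ n : ℕ, ∃ j : ℤ, (TT C φ₀ φ₁)^[n] (v 0) ≤ v j ∧
        j - 2 * ((2 * j - 1 - c₀) / (M : ℤ)) - 2 * ((2 * j - 1 - (2 * c₀ - c₁)) / (M : ℤ)) ≤
        0 - 2 * ((2 * 0 - 1 - c₀) / (M : ℤ)) - 2 * ((2 * 0 - 1 - (2 * c₀ - c₁)) / (M : ℤ)) +
          n * (c₁ - c₀) := by
      intro n
      induction n with
      | zero => exact ⟨0, by simp, by simp⟩
      | succ n ih =>
        obtain ⟨j, hj1, hj2⟩ := ih
        obtain ⟨k, hk1, -, hk3⟩ := hstep j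
        refine ⟨k, ?_, ?_⟩
        · rw [Function.iterate_succ_apply']
          exact (hTC.mono.monotone hj1).trans hk1
        · have h1 : ((n + 1 : ℕ) : ℤ) * (c₁ - c₀) = n * (c₁ - c₀) + (c₁ - c₀) := by
            push_cast; ring
          rw [h1]
          linarith
    -- real estimate
    have hMr : (8 : ℝ) < M := by exact_mod_cast h8
    set K : ℝ := ((0 - 2 * ((2 * 0 - 1 - c₀) / (M : ℤ)) -
      2 * ((2 * 0 - 1 - (2 * c₀ - c₁)) / (M : ℤ)) : ℤ) : ℝ) with hK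
    set A : ℝ := (2 * (-1 - (c₀ : ℝ)) / M + 2 * (-1 - (2 * c₀ - c₁ : ℝ)) / M) with hAA
    have hbound : ∀ n : ℕ, 0 < n → rot C φ₀ φ₁ * n ≤
        (n * ((c₁ - c₀ : ℤ) : ℝ) + K + A) / (M - 8) + 1 := by
      intro n hn
      obtain ⟨j, hj1, hj2⟩ := hiter n
      have hM' : (0 : ℤ) < M := by exact_mod_cast hM0
      have hj3 : j ≤ (j / (M : ℤ) + 1) * M := by
        have := Int.lt_ediv_add_one_mul_self j hM'
        exact this.le
      have hj4 : v j ≤ v 0 + 2 * π * ((j / (M : ℤ) + 1 : ℤ) : ℝ) := by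
        have h1 : v j ≤ v (0 + (j / (M : ℤ) + 1) * M) := hA.mono.monotone (by linarith)
        rw [hper] at h1
        linarith
      have h1 := (hRHA _ hTC).1 (v 0) (j / (M : ℤ) + 1) n hn (hj1.trans hj4)
      have hn' : (0 : ℝ) < n := by exact_mod_cast hn
      have h2 : rot C φ₀ φ₁ * n ≤ ((j / (M : ℤ) + 1 : ℤ) : ℝ) := by
        have := (le_div_iff₀ hn').1 h1
        exact this
      have hMp : (0 : ℝ) < M := by linarith
      have hdiv : ∀ a : ℤ, ((a / (M : ℤ) : ℤ) : ℝ) ≤ (a : ℝ) / M := by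
        intro a
        rw [le_div_iff₀ hMp]
        have := Int.ediv_mul_le a (ne_of_gt hM')
        exact_mod_cast this
      have h3 : ((j / (M : ℤ) + 1 : ℤ) : ℝ) ≤ (j : ℝ) / M + 1 := by
        have := hdiv j
        push_cast
        push_cast at this
        linarith
      have h4 := hdiv (2 * j - 1 - c₀)
      have h5 := hdiv (2 * j - 1 - (2 * c₀ - c₁))
      have h6 : ((j - 2 * ((2 * j - 1 - c₀) / (M : ℤ)) -
          2 * ((2 * j - 1 - (2 * c₀ - c₁)) / (M : ℤ)) : ℤ) : ℝ) ≤ K + n * ((c₁ - c₀ : ℤ) : ℝ) := by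
        rw [hK]
        exact_mod_cast hj2
      have h7 : ((2 * j - 1 - c₀ : ℤ) : ℝ) / M = 2 * (j : ℝ) / M + (-1 - (c₀ : ℝ)) / M := by
        push_cast; ring
      have h9 : ((2 * j - 1 - (2 * c₀ - c₁) : ℤ) : ℝ) / M =
          2 * (j : ℝ) / M + (-1 - (2 * c₀ - c₁ : ℝ)) / M := by
        push_cast; ring
      rw [h7] at h4
      rw [h9] at h5
      have h10 : (j : ℝ) - 8 * ((j : ℝ) / M) ≤ K + n * ((c₁ - c₀ : ℤ) : ℝ) + A := by
        rw [hAA]
        rw [Int.cast_sub, Int.cast_sub, Int.cast_mul, Int.cast_mul] at h6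
        have h11 : 2 * (j : ℝ) / M = 2 * ((j : ℝ) / M) := by ring
        have h12 : 2 * (-1 - (c₀ : ℝ)) / M = 2 * ((-1 - (c₀ : ℝ)) / M) := by ring
        have h13 : 2 * (-1 - (2 * c₀ - c₁ : ℝ)) / M = 2 * ((-1 - (2 * c₀ - c₁ : ℝ)) / M) := by ring
        rw [h12, h13]
        rw [h11] at h4 h5
        have h14 : ((2 : ℤ) : ℝ) = 2 := by norm_num
        rw [h14] at h6
        linarith
      have h15 : (j : ℝ) / M ≤ (n * ((c₁ - c₀ : ℤ) : ℝ) + K + A) / (M - 8) := by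
        rw [le_div_iff₀ (by linarith)]
        have h16 : (j : ℝ) / M * (M - 8) = (j : ℝ) - 8 * ((j : ℝ) / M) := by
          field_simp
        rw [h16]; linarith
      linarith
    -- limit
    by_contra hcon
    push_neg at hcon
    set d : ℝ := rot C φ₀ φ₁ - ((c₁ - c₀ : ℤ) : ℝ) / ((M : ℝ) - 8) with hd
    have hd0 : 0 < d := by rw [hd]; linarith
    obtain ⟨n, hn⟩ := exists_nat_gt (max 0 (((K + A) / (M - 8) + 1) / d))
    have hn0 : (0 : ℝ) < n := lt_of_le_of_lt (le_max_left _ _) hn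
    have hn1 : ((K + A) / (M - 8) + 1) / d < n := lt_of_le_of_lt (le_max_right _ _) hn
    rw [div_lt_iff₀ hd0] at hn1
    have h1 := hbound n (by exact_mod_cast hn0)
    have h2 : (n * ((c₁ - c₀ : ℤ) : ℝ) + K + A) / ((M : ℝ) - 8) =
        n * (((c₁ - c₀ : ℤ) : ℝ) / ((M : ℝ) - 8)) + (K + A) / (M - 8) := by ring
    rw [h2] at h1
    have h3 : (n : ℝ) * d = rot C φ₀ φ₁ * n - n * (((c₁ - c₀ : ℤ) : ℝ) / ((M : ℝ) - 8)) := by
      rw [hd]; ring
    linarith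

end Pool.XR2
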