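import Pool.Agent.H62.XR2.Sq

set_option autoImplicit false

open MeasureTheory Set Filter Topology Metric Asymptotics
open scoped Real ENNReal

namespace Pool.XR2

open Pool.Agent.H45.XR

lemma fin_fx {F o : ℝ → ℝ} (hF : StrictAnti F) (ho : StrictMono o ∨ StrictAnti o) (A B : ℝ) :
    {a : ℝ | a ∈ Icc A B ∧ Fx F (o a)}.Finite := by
  have hpi := Real.pi_pos
  set g : ℝ → ℝ := fun a => F (o a) - o a with hg
  have hanti : StrictAnti (fun w => F w - w) := by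
    intro a b hab
    have := hF hab
    simp only
    linarith
  have hinj : Function.Injective g := by
    intro a b hab
    have h1 := hanti.injective hab
    rcases ho with ho | ho
    · exact ho.injective h1
    · exact ho.injective h1
  obtain ⟨m, M, hb⟩ : ∃ m M : ℝ, ∀ a ∈ Icc A B, m ≤ g a ∧ g a ≤ M := by
    rcases ho with ho | ho
    · exact ⟨g B, g A, fun a ha => ⟨hanti.antitone (ho.monotone ha.2),
        hanti.antitone (ho.monotone ha.1)⟩⟩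
    · exact ⟨g A, g B, fun a ha => ⟨hanti.antitone (ho.antitone ha.1),
        hanti.antitone (ho.antitone ha.2)⟩⟩
  set K1 : ℤ := ⌊m / (2 * π)⌋ with hK1
  set K2 : ℤ := ⌈M / (2 * π)⌉ with hK2
  have hfin : ((fun k : ℤ => (k : ℝ) * (2 * π)) '' (Icc K1 K2)).Finite :=
    (Set.finite_Icc K1 K2).image _
  refine (hfin.preimage (hinj.injOn)).subset ?_
  rintro a ⟨ha, k, hk⟩
  obtain ⟨h1, h1'⟩ := hb a ha
  have h2 : g a = k * (2 * π) := by simp only [hg]; linarith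
  refine ⟨k, ⟨?_, ?_⟩, h2.symm⟩
  · have h3 : m / (2 * π) ≤ k := by
      rw [div_le_iff₀ (by positivity)]; linarith
    have h4 : ((K1 : ℤ) : ℝ) ≤ k := (Int.floor_le _).trans h3
    exact_mod_cast h4
  · have h3 : (k : ℝ) ≤ M / (2 * π) := by
      rw [le_div_iff₀ (by positivity)]; linarith
    have h4 : (k : ℝ) ≤ ((K2 : ℤ) : ℝ) := h3.trans (Int.le_ceil _)
    exact_mod_cast h4

lemma orb_mono {F G : ℝ → ℝ} (hF : StrictAnti F) (hG : StrictAnti G) (n : ℕ) :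
    StrictMono (fun x => orb F G x n) ∨ StrictAnti (fun x => orb F G x n) := by
  induction n with
  | zero => exact Or.inl strictMono_id
  | succ n ih =>
    simp only [orb]
    by_cases hn : Even n
    · simp only [hn, if_true]
      rcases ih with ih | ih
      · exact Or.inr (fun a b hab => hF (ih hab))
      · exact Or.inl (fun a b hab => hF (ih hab))
    · simp only [hn, if_false]
      rcases ih with ih | ih
      · exact Or.inr (fun a b hab => hG (ih hab))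
      · exact Or.inl (fun a b hab => hG (ih hab))

/-- A rational abscissa whose chain is tip-free. -/
lemma good_x (hFLX : FLXStmt) (hTPA : TPAStmt) {K : Set (ℂ × ℝ)} (hK : Body3 K) {φ₀ φ₁ y : ℝ}
    (hy : y ∈ Hts K) (h0 : NSH K φ₀) (h1 : NSH K φ₁) (q : ℕ) :
    ∃ x : ℚ, Inl K φ₀ x y ∧ ∀ n < 2 * q,
      ¬ Fx (if Even n then fl (Cq K y) φ₀ else fl (Cq K y) φ₁)
        (orbC (Cq K y) φ₀ φ₁ (ta K φ₀ x y) n) := by
  have hC := body_Cq hK hy
  have i0 := (hFLX _ φ₀ hC (h0 y hy)).1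
  have i1 := (hFLX _ φ₁ hC (h1 y hy)).1
  set S : Set ℝ := ⋃ n ∈ Finset.range (2 * q), {a : ℝ | a ∈ Icc (φ₀ - π) (φ₀ + π) ∧
    Fx (if Even n then fl (Cq K y) φ₀ else fl (Cq K y) φ₁) (orbC (Cq K y) φ₀ φ₁ a n)} with hS
  have hSf : S.Finite := by
    rw [hS]
    refine Set.Finite.biUnion (Finset.finite_toSet _) (fun n _ => ?_)
    apply fin_fx
    · split_ifs
      · exact i0.anti
      · exact i1.anti
    · exact orb_mono i0.anti i1.anti n
  set B : Set ℝ := (fun θ => tc φ₀ (pt (Cq K y) θ) + tc φ₀ (cen (sec K y))) '' S with hB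
  have hBf : B.Finite := hSf.image _
  set U : Set ℝ := {x | Inl K φ₀ x y} with hU
  have hUo : IsOpen U := by
    rw [isOpen_iff_mem_nhds]
    rintro x ⟨z, hz, hx⟩
    have hc : Continuous (fun x' : ℝ =>
        ((z + ((x' - x : ℝ) : ℂ) * (Complex.I * e φ₀), y) : ℂ × ℝ)) := by fun_prop
    have h2 : (fun x' : ℝ => ((z + ((x' - x : ℝ) : ℂ) * (Complex.I * e φ₀), y) : ℂ × ℝ)) x =
        (z, y) := by simp
    have h3 : ∀ᶠ x' in 𝓝 x,
        ((z + ((x' - x : ℝ) : ℂ) * (Complex.I * e φ₀), y) : ℂ × ℝ) ∈ interior K := by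
      apply hc.continuousAt.eventually (isOpen_interior.mem_nhds _)
      rw [h2]; exact hz
    filter_upwards [h3] with x' hx'
    refine ⟨_, hx', ?_⟩
    rw [tc_add, hx, tc_mul]
    have h4 : tc φ₀ (Complex.I * e φ₀) = 1 := by
      unfold tc
      simp only [Complex.mul_im, Complex.mul_re, Complex.I_re, Complex.I_im, e_re, e_im]
      have := Real.sin_sq_add_cos_sq φ₀
      nlinarith
    rw [h4]; ring
  have hUn : U.Nonempty := by
    obtain ⟨z, hz⟩ := hy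
    exact ⟨tc φ₀ z, z, hz, rfl⟩
  have hd : Dense Bᶜ := hBf.countable.dense_compl ℝ
  obtain ⟨x₀, hx₀U, hx₀B⟩ := hd.inter_open_nonempty U hUo hUn
  have hopen : IsOpen (U ∩ Bᶜ) := hUo.inter hBf.isClosed.isOpen_compl
  obtain ⟨x, hx⟩ := Rat.denseRange_cast.exists_mem_open hopen ⟨x₀, hx₀U, hx₀B⟩
  refine ⟨x, hx.1, fun n hn hfx => hx.2 ?_⟩
  obtain ⟨t1, t2, t3, -⟩ := hTPA (Cq K y) φ₀ (x - tc φ₀ (cen (sec K y))) hC (h0 y hy)
    (inl_int hK hx.1)
  refine ⟨ta K φ₀ x y, ?_, ?_⟩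
  · rw [hS]
    simp only [mem_iUnion, Finset.mem_range]
    refine ⟨n, hn, ?_, hfx⟩
    obtain ⟨r, hr1, hr2, hr3, -⟩ := i0.rt
    obtain ⟨l, hl1, hl2, hl3, -⟩ := i0.lt
    constructor
    · by_contra hcon
      push Not at hcon
      have h5 : ta K φ₀ x y ≤ r := by linarith
      have h6 := i0.anti.antitone h5
      rw [hr3] at h6
      have : fl (Cq K y) φ₀ (ta K φ₀ x y) < ta K φ₀ x y := t1
      linarith
    · by_contra hcon
      push Not at hcon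
      have h5 : l ≤ ta K φ₀ x y := by linarith
      have h6 := i0.anti.antitone h5
      rw [hl3] at h6
      have : ta K φ₀ x y < fl (Cq K y) φ₀ (ta K φ₀ x y) + 2 * π := t2
      linarith
  · have h7 : tc φ₀ (pt (Cq K y) (ta K φ₀ x y)) = x - tc φ₀ (cen (sec K y)) := t3
    simp only [h7]; ring

/-- Uniform goodness of chains near a height. -/
lemma gd_ev (hFLC : FLCStmt) (hTAC : TACStmt) (hCSC : CSCStmt) (hSGB : SGBStmt)
    {K : Set (ℂ × ℝ)} (hK : Body3 K) {φ₀ φ₁ x y κ : ℝ} (h0 : NSH K φ₀) (h1 : NSH K φ₁)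
    (hi : Inl K φ₀ x y) {q : ℕ} (hκ : 0 < κ) (hg : Gd (Cq K y) φ₀ φ₁ q κ (ta K φ₀ x y)) :
    ∃ η > 0, ∀ᶠ h in 𝓝 y, ∀ z, |z - ta K φ₀ x h| < η → Gd (Cq K h) φ₀ φ₁ q (κ / 2) z := by
  have hy := inl_hts hi
  by_contra hcon
  push Not at hcon
  have h2 : ∀ n : ℕ, ∃ h : ℝ, h ∈ Hts K ∧ |h - y| < 1 / ((n : ℝ) + 1) ∧
      ∃ z, |z - ta K φ₀ x h| < 1 / ((n : ℝ) + 1) ∧ ¬ Gd (Cq K h) φ₀ φ₁ q (κ / 2) z := by
    intro n
    have hn : (0 : ℝ) < 1 / ((n : ℝ) + 1) := by positivity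
    have h3 := hcon _ hn
    have h4 : ∃ᶠ h in 𝓝 y, ¬ ∀ z, |z - ta K φ₀ x h| < 1 / ((n : ℝ) + 1) →
        Gd (Cq K h) φ₀ φ₁ q (κ / 2) z := by
      refine h3.mono (fun h hh => ?_)
      push Not
      exact hh
    have h5 := h4.and_eventually (((hts_open K).mem_nhds hy))
    have h6 := h5.and_eventually (Metric.ball_mem_nhds y hn)
    obtain ⟨h, ⟨h7, h8⟩, h9⟩ := h6.exists
    push Not at h7
    obtain ⟨z, hz1, hz2⟩ := h7
    refine ⟨h, h8, ?_, z, hz1, hz2⟩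
    rw [Real.dist_eq] at h9
    exact h9
  choose u hu1 hu2 z hz1 hz2 using h2
  have hlim0 : Tendsto (fun n : ℕ => 1 / ((n : ℝ) + 1)) atTop (𝓝 0) :=
    tendsto_one_div_add_atTop_nhds_zero_nat
  have hul : Tendsto u atTop (𝓝 y) := by
    rw [tendsto_iff_dist_tendsto_zero]
    refine squeeze_zero (fun n => dist_nonneg) (fun n => ?_) hlim0
    rw [Real.dist_eq]; exact (hu2 n).le
  have htal := ta_lim hTAC hCSC hSGB hK h0 hu1 hul hi
  have hzl : Tendsto z atTop (𝓝 (ta K φ₀ x y)) := by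
    have h3 : Tendsto (fun n => z n - ta K φ₀ x (u n)) atTop (𝓝 0) := by
      rw [tendsto_zero_iff_abs_tendsto_zero]
      exact squeeze_zero (fun n => abs_nonneg _) (fun n => (hz1 n).le) hlim0
    have h4 := h3.add htal
    simpa using h4
  have hBn : ∀ n, Body (Cq K (u n)) := fun n => body_Cq hK (hu1 n)
  have hB := body_Cq hK hy
  have hbl := (cq_lim hCSC hSGB hK hul hy).1
  have hev : ∀ᶠ n in atTop, ∀ k < 2 * q,
      Lv (Cq K (u n)) (if Even k then φ₀ else φ₁) (κ / 2) (orbC (Cq K (u n)) φ₀ φ₁ (z n) k) := by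
    have h5 : ∀ k : ℕ, k < 2 * q → ∀ᶠ n in atTop,
        Lv (Cq K (u n)) (if Even k then φ₀ else φ₁) (κ / 2)
          (orbC (Cq K (u n)) φ₀ φ₁ (z n) k) := by
      intro k hk
      exact lv_lim hBn hB hbl
        (orbC_lim hFLC hBn (fun n => h0 _ (hu1 n)) (fun n => h1 _ (hu1 n)) hB (h0 _ hy) (h1 _ hy)
          hbl hzl k) (hg k hk) (by linarith)
    have h6 : ∀ᶠ n in atTop, ∀ k ∈ Finset.range (2 * q),
        Lv (Cq K (u n)) (if Even k then φ₀ else φ₁) (κ / 2)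
          (orbC (Cq K (u n)) φ₀ φ₁ (z n) k) := by
      rw [Filter.eventually_all_finset]
      intro k hk
      exact h5 k (Finset.mem_range.1 hk)
    filter_upwards [h6] with n hn k hk
    exact hn k (Finset.mem_range.2 hk)
  obtain ⟨n, hn⟩ := hev.exists
  exact hz2 n hn

theorem t_fhd (hAE8 : AE8Stmt) (hNLH : NLHStmt) (hXNH : XNHStmt) (hCN1 : CN1Stmt)
    (hUDP : UDPStmt) (hCSC : CSCStmt) (hPMH : PMHStmt) (hTPA : TPAStmt) (hTAC : TACStmt)
    (hDLT : DLTStmt) (hFLC : FLCStmt) (hFLB : FLBStmt) (hSGB : SGBStmt) (hFLX : FLXStmt) :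
    FHDStmt := by
  intro K φ₀ hK h0
  have hpi := Real.pi_pos
  -- the null sets
  have A1 : ∀ᵐ φ₁ : ℝ, ∀ h : ℚ, (h : ℝ) ∈ Hts K → φ₀ < φ₁ → φ₁ < φ₀ + π →
      NoSeg (Cq K h) φ₁ → ∀ C', PM (Cq K h) C' φ₀ φ₁ → Cq K h ≠ C' →
        interior (EE (Cq K h) C') = ∅ := by
    rw [ae_all_iff]
    intro h
    by_cases hh : (h : ℝ) ∈ Hts K
    · filter_upwards [hAE8 (Cq K h) φ₀ (body_Cq hK hh) (h0 _ hh)] with φ₁ hφ _ using hφ
    · exact Eventually.of_forall (fun φ₁ hh' => absurd hh' hh)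
  have A2 : ∀ᵐ φ₁ : ℝ, ∀ (x : ℚ) (p : ℤ) (q : ℕ), ¬ (φ₀ < φ₁ ∧ φ₁ < φ₀ + π ∧ NSH K φ₁ ∧
      ∃ y, FlatH K φ₀ φ₁ p q x y) := by
    rw [ae_all_iff]; intro x
    rw [ae_all_iff]; intro p
    rw [ae_all_iff]; intro q
    rw [ae_iff]
    simp only [not_not]
    exact hNLH K φ₀ x p q hK h0
  have A3 : ∀ᵐ φ₁ : ℝ, ∀ x : ℚ, ∀ y ∈ {y : ℝ | y ∈ Hts K ∧ Inl K φ₀ x y ∧
      ¬ DifferentiableAt ℝ (fun h => xr (sec K h) φ₀ x) y}, ∀ (p : ℤ) (q : ℕ), 0 < q →
      φ₁ ∉ {φ₁ : ℝ | φ₀ < φ₁ ∧ φ₁ < φ₀ + π ∧ NoSeg (Cq K y) φ₁ ∧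
        (∃ κ > 0, Gd (Cq K y) φ₀ φ₁ q κ (ta K φ₀ x y)) ∧
        dsp (Cq K y) φ₀ φ₁ p q (ta K φ₀ x y) = 0} := by
    rw [ae_all_iff]; intro x
    rw [ae_ball_iff (hXNH K φ₀ x hK)]
    intro y hy
    rw [ae_all_iff]; intro p
    rw [ae_all_iff]; intro q
    by_cases hq : 0 < q
    · have h1 := hCN1 (Cq K y) φ₀ (ta K φ₀ x y) p q (body_Cq hK hy.1) (h0 _ hy.1) hq
      have h2 := h1.countable.ae_notMem (volume : Measure ℝ)
      filter_upwards [h2] with φ₁ hφ _ using hφ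
    · exact Eventually.of_forall (fun φ₁ hh' => absurd hh' hq)
  filter_upwards [A1, A2, A3] with φ₁ a1 a2 a3
  intro h01 h10 h1 K' hM y δ p q hδ hp hpq hyZ hacc hrot hdisc
  obtain ⟨hy, hyE⟩ := hyZ
  have hq : 0 < q := by
    have : (0 : ℤ) < q := lt_trans hp hpq
    exact_mod_cast this
  have hK' := hM.body
  obtain ⟨hHts, hsec⟩ := hPMH K K' φ₀ φ₁ hK hM h01 h10 h0 h1
  have hy' : y ∈ Hts K' := hHts.symm ▸ hy
  obtain ⟨x, hxI, hxT⟩ := good_x hFLX hTPA hK hy h0 h1 q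
  -- goodness at y
  have hgd : ∃ κ > 0, Gd (Cq K y) φ₀ φ₁ q κ (ta K φ₀ x y) := by
    apply gd_ex
    intro n hn
    have h2 := hxT n hn
    by_cases hev : Even n
    · rw [if_pos hev] at h2 ⊢
      exact ((hFLB (Cq K y) φ₀ (body_Cq hK hy) (h0 _ hy)).2.2.2.2.1 _).1 h2
    · rw [if_neg hev] at h2 ⊢
      exact ((hFLB (Cq K y) φ₁ (body_Cq hK hy) (h1 _ hy)).2.2.2.2.1 _).1 h2
  obtain ⟨κ, hκ, hgκ⟩ := hgd
  obtain ⟨η, hη, hgev⟩ := gd_ev hFLC hTAC hCSC hSGB hK h0 h1 hxI hκ hgκ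
  obtain ⟨r₁, hr₁, R₁, hb₁⟩ := bd_ev hCSC hSGB hK hy
  obtain ⟨r₂, hr₂, R₂, hb₂⟩ := bd_ev hCSC hSGB hK' hy'
  obtain ⟨ε, hε, B, hB, hU⟩ := hUDP (min r₁ r₂) (max R₁ R₂) (κ / 2) q η (lt_min hr₁ hr₂)
    (by positivity) hq hη
  have hc₁ := rad_ev hCSC hSGB hK hy (ε := ε / 2) (by positivity)
  have hc₂ := rad_ev hCSC hSGB hK' hy' (ε := ε / 2) (by positivity)
  rw [hyE] at hc₂
  have hall : ∀ᶠ h in 𝓝 y, (∀ z, |z - ta K φ₀ x h| < η → Gd (Cq K h) φ₀ φ₁ q (κ / 2) z) ∧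
      Bd (min r₁ r₂) (max R₁ R₂) (Cq K h) ∧ Bd (min r₁ r₂) (max R₁ R₂) (Cq K' h) ∧
      (∀ θ, |rad (Cq K' h) θ - rad (Cq K h) θ| ≤ ε) ∧ Inl K φ₀ x h := by
    filter_upwards [hgev, hb₁, hb₂, hc₁, hc₂, inl_ev hxI] with h e1 e2 e3 e4 e5 e6
    refine ⟨e1, bd_mono e2 (min_le_left _ _) (le_max_left _ _),
      bd_mono e3 (min_le_right _ _) (le_max_right _ _), fun θ => ?_, e6⟩
    have f1 := abs_lt.1 (e4 θ)
    have f2 := abs_lt.1 (e5 θ)
    rw [abs_le]; constructor <;> linarith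
  obtain ⟨δ₁, hδ₁, hall⟩ := Metric.eventually_nhds_iff.1 hall
  set δ' := min δ δ₁ with hδ'
  have hδ'0 : 0 < δ' := lt_min hδ hδ₁
  have hδ'1 : δ' ≤ δ := min_le_left _ _
  have hδ'2 : δ' ≤ δ₁ := min_le_right _ _
  have hall' : ∀ h, y < h → h < y + δ' → _ := fun h g1 g2 =>
    hall (y := h) (by rw [Real.dist_eq, abs_lt]; constructor <;> linarith)
  set f : ℝ → ℝ := fun h => rad (Cq K' h) (ta K φ₀ x h) - rad (Cq K h) (ta K φ₀ x h) with hf
  -- rational bad heights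
  have hrat : ∀ h : ℚ, y < h → (h : ℝ) < y + δ' → (h : ℝ) ∉ ZZ K K' →
      |dsh K φ₀ φ₁ p q x h| ≤ B * |f h| := by
    intro h g1 g2 g3
    obtain ⟨e1, e2, e3, e4, e5⟩ := hall' h g1 g2
    obtain ⟨g4, g5⟩ := hrot h g1 (by linarith)
    obtain ⟨-, g6, -⟩ := hsec h g4
    have hne : Cq K h ≠ Cq K' h := fun hh => g3 ⟨g4, hh.symm⟩
    exact hU (Cq K h) (Cq K' h) φ₀ φ₁ p e2 e3 g6 g5 (a1 h g4 h01 h10 (h1 _ g4) _ g6 hne) e4
      (ta K φ₀ x h) e1
  -- rational bad heights are dense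
  have hdense : ∀ a b : ℝ, y ≤ a → a < b → b ≤ y + δ → ∃ h : ℚ, a < h ∧ (h : ℝ) < b ∧
      (h : ℝ) ∉ ZZ K K' := by
    intro a b ha hab hb
    obtain ⟨r, hr1, hr2⟩ := exists_rat_btwn hab
    by_cases hrZ : (r : ℝ) ∈ ZZ K K'
    · obtain ⟨ε', hε', hiso⟩ := hdisc r hrZ (by linarith) (by linarith)
      obtain ⟨s, hs1, hs2⟩ := exists_rat_btwn
        (show (r : ℝ) < min b (r + ε') from lt_min hr2 (by linarith))
      have hs3 := hs2.trans_le (min_le_left _ _)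
      have hs4 := hs2.trans_le (min_le_right _ _)
      refine ⟨s, by linarith, hs3, fun hsZ => ?_⟩
      have := hiso s hsZ (by rw [abs_lt]; constructor <;> linarith)
      linarith
    · exact ⟨r, hr1, hr2, hrZ⟩
  -- limits along sequences
  have hflim : ∀ (u : ℕ → ℝ) (h : ℝ), (∀ n, u n ∈ Hts K) → Tendsto u atTop (𝓝 h) →
      Inl K φ₀ x h → Tendsto (fun n => f (u n)) atTop (𝓝 (f h)) ∧
        Tendsto (fun n => dsh K φ₀ φ₁ p q x (u n)) atTop (𝓝 (dsh K φ₀ φ₁ p q x h)) := by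
    intro u h hu hul hi
    have hh := inl_hts hi
    have hh' : h ∈ Hts K' := hHts.symm ▸ hh
    have t1 := ta_lim hTAC hCSC hSGB hK h0 hu hul hi
    have b1 := (cq_lim hCSC hSGB hK hul hh).1
    have b2 := (cq_lim hCSC hSGB hK' hul hh').1
    refine ⟨(rad_lim (body_Cq hK' hh') b2 t1).sub (rad_lim (body_Cq hK hh) b1 t1), ?_⟩
    exact dsp_lim hFLC (fun n => body_Cq hK (hu n)) (fun n => h0 _ (hu n)) (fun n => h1 _ (hu n))
      (body_Cq hK hh) (h0 _ hh) (h1 _ hh) b1 t1 p q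
  -- all heights on the right
  have hreal : ∀ h, y < h → h < y + δ' → |dsh K φ₀ φ₁ p q x h| ≤ B * |f h| := by
    intro h g1 g2
    have hs : ∀ n : ℕ, ∃ s : ℚ, max y (h - 1 / ((n : ℝ) + 1)) < s ∧ (s : ℝ) < h ∧
        (s : ℝ) ∉ ZZ K K' := by
      intro n
      have hn : (0 : ℝ) < 1 / ((n : ℝ) + 1) := by positivity
      exact hdense _ _ (le_max_left _ _) (max_lt g1 (by linarith)) (by linarith)
    choose s hs1 hs2 hs3 using hs
    have hs4 : ∀ n : ℕ, y < s n := fun n => (le_max_left _ _).trans_lt (hs1 n)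
    have hs5 : ∀ n : ℕ, h - 1 / ((n : ℝ) + 1) < s n := fun n => (le_max_right _ _).trans_lt (hs1 n)
    have hsl : Tendsto (fun n => (s n : ℝ)) atTop (𝓝 h) := by
      have hl0 : Tendsto (fun n : ℕ => h - 1 / ((n : ℝ) + 1)) atTop (𝓝 (h - 0)) :=
        tendsto_const_nhds.sub tendsto_one_div_add_atTop_nhds_zero_nat
      rw [sub_zero] at hl0
      exact tendsto_of_tendsto_of_tendsto_of_le_of_le hl0 tendsto_const_nhds
        (fun n => (hs5 n).le) (fun n => (hs2 n).le)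
    obtain ⟨-, -, -, -, e5⟩ := hall' h g1 g2
    obtain ⟨l1, l2⟩ := hflim (fun n => (s n : ℝ)) h
      (fun n => (hrot (s n) (hs4 n) (by have := hs2 n; linarith)).1) hsl e5
    exact le_of_tendsto_of_tendsto' l2.abs (l1.abs.const_mul B)
      (fun n => hrat (s n) (hs4 n) (by have := hs2 n; linarith) (hs3 n))
  -- the height y
  have hfy : f y = 0 := by simp only [hf]; rw [hyE]; ring
  have hdy : dsh K φ₀ φ₁ p q x y = 0 := by
    set u : ℕ → ℝ := fun n => y + δ' / ((n : ℝ) + 2) with hu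
    have hu1 : ∀ n, y < u n ∧ u n < y + δ' := by
      intro n
      have hn : (0 : ℝ) < (n : ℝ) + 2 := by positivity
      constructor
      · simp only [hu]
        have : 0 < δ' / ((n : ℝ) + 2) := by positivity
        linarith
      · simp only [hu]
        have : δ' / ((n : ℝ) + 2) < δ' := by
          rw [div_lt_iff₀ hn]
          have : (0 : ℝ) ≤ n := Nat.cast_nonneg n
          nlinarith
        linarith
    have hul : Tendsto u atTop (𝓝 y) := by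
      have h2 : Tendsto (fun n : ℕ => δ' / ((n : ℝ) + 2)) atTop (𝓝 0) := by
        apply Tendsto.div_atTop tendsto_const_nhds
        exact tendsto_atTop_add_const_right _ _ tendsto_natCast_atTop_atTop
      have h3 := h2.const_add y
      simpa using h3
    obtain ⟨l1, l2⟩ := hflim u y
      (fun n => (hrot (u n) (hu1 n).1 (by have := (hu1 n).2; linarith)).1) hul hxI
    have h3 := le_of_tendsto_of_tendsto' l2.abs (l1.abs.const_mul B)
      (fun n => hreal (u n) (hu1 n).1 (hu1 n).2)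
    rw [hfy, abs_zero, mul_zero] at h3
    exact abs_nonpos_iff.1 h3
  by_cases hd : DifferentiableAt ℝ (fun h => xr (sec K h) φ₀ x) y
  · have hlit := (hDLT K K' φ₀ φ₁ x y hK hM h01 h10 h0 h1 ⟨hy, hyE⟩ hacc hxI hd).mono
      (nhdsWithin_le_nhds (s := Ioi y))
    refine a2 x p q ⟨h01, h10, h1, y, ⟨hq, hy, hxI, ⟨κ, hκ, hgκ⟩, hdy, ?_⟩⟩
    refine IsBigO.trans_isLittleO (g := f) ?_ hlit
    refine IsBigO.of_bound B ?_
    have hI : Ioo y (y + δ') ∈ 𝓝[>] y := Ioo_mem_nhdsGT (by linarith)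
    filter_upwards [hI] with h hh
    rw [Real.norm_eq_abs, Real.norm_eq_abs]
    exact hreal h hh.1 hh.2
  · exact a3 x y ⟨hy, hxI, hd⟩ p q hq ⟨h01, h10, h1 _ hy, ⟨κ, hκ, hgκ⟩, hdy⟩

end Pool.XR2
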