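import Pool.Agent.H62.XR2.Sq

set_option autoImplicit false

open MeasureTheory Set Filter Topology Metric Asymptotics
open scoped Real ENNReal

namespace Pool.XR2

open Pool.Agent.H45.XR

lemma body_inter {C C' : Set ℂ} (hC : Body C) (hC' : Body C') : Body (C ∩ C') :=
  ⟨hC.conv.inter hC'.conv, hC.cpt.inter hC'.cpt, by
    rw [interior_inter]; exact ⟨hC.zero, hC'.zero⟩⟩

lemma rad_inter {C C' : Set ℂ} (hC : Body C) (hC' : Body C') (θ : ℝ) :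
    rad (C ∩ C') θ = min (rad C θ) (rad C' θ) := by
  have hW := body_inter hC hC'
  have h1 : ∀ s : ℝ, 0 ≤ s → (s ≤ rad (C ∩ C') θ ↔ s ≤ min (rad C θ) (rad C' θ)) := by
    intro s hs
    rw [← mem_iff_le_rad hW θ hs, le_min_iff, ← mem_iff_le_rad hC θ hs,
      ← mem_iff_le_rad hC' θ hs, mem_inter_iff]
  apply le_antisymm
  · exact (h1 _ (rad_pos hW θ).le).1 le_rfl
  · exact (h1 _ (le_min (rad_pos hC θ).le (rad_pos hC' θ).le)).2 le_rfl

lemma blim_inter {C C' : ℕ → Set ℂ} {D D' : Set ℂ} (hC : ∀ n, Body (C n))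
    (hC' : ∀ n, Body (C' n)) (hD : Body D) (hD' : Body D') (h : BLim C D) (h' : BLim C' D') :
    BLim (fun n => C n ∩ C' n) (D ∩ D') := by
  unfold BLim at *
  rw [Metric.tendstoUniformly_iff] at *
  intro ε hε
  filter_upwards [h ε hε, h' ε hε] with n h1 h2 θ
  have h3 := h1 θ
  have h4 := h2 θ
  rw [Real.dist_eq] at *
  rw [rad_inter hD hD', rad_inter (hC n) (hC' n)]
  exact (abs_min_sub_min_le_max _ _ _ _).trans_lt (max_lt h3 h4)

theorem t_rct (hCSC : CSCStmt) (hPMH : PMHStmt) (hRCN : RCNStmt) (hWFL : WFLStmt)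
    (hSGB : SGBStmt) : RCTStmt := by
  intro K K' φ₀ φ₁ hK hM h01 h10 h0 h1
  have hK' := hM.body
  obtain ⟨hHts, hsec⟩ := hPMH K K' φ₀ φ₁ hK hM h01 h10 h0 h1
  have hW : ∀ h ∈ Hts K, Body (Cq K h ∩ Cq K' h) ∧ NoSeg (Cq K h ∩ Cq K' h) φ₀ ∧
      NoSeg (Cq K h ∩ Cq K' h) φ₁ := by
    intro h hh
    obtain ⟨-, hP, -⟩ := hsec h hh
    obtain ⟨a1, a2, -⟩ := hWFL _ _ φ₀ hP.b hP.b' hP.x0 hP.n0
    obtain ⟨-, a3, -⟩ := hWFL _ _ φ₁ hP.b hP.b' hP.x1 hP.n1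
    exact ⟨a1, a2, a3⟩
  intro y hy
  have hy' : y ∈ Hts K' := hHts.symm ▸ hy
  rw [ContinuousWithinAt, (hts_open K).nhdsWithin_eq hy, Metric.tendsto_nhds]
  intro ε hε
  apply ev_seq hy
  intro u hu hl
  have hu' : ∀ n, u n ∈ Hts K' := fun n => hHts.symm ▸ hu n
  have b := blim_inter (fun n => body_Cq hK (hu n)) (fun n => body_Cq hK' (hu' n))
    (body_Cq hK hy) (body_Cq hK' hy') (cq_lim hCSC hSGB hK hl hy).1
    (cq_lim hCSC hSGB hK' hl hy').1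
  have h2 := hRCN (fun n => Cq K (u n) ∩ Cq K' (u n)) (Cq K y ∩ Cq K' y) (fun _ => φ₀)
    (fun _ => φ₁) φ₀ φ₁ (fun n => (hW _ (hu n)).1) (fun n => (hW _ (hu n)).2.1)
    (fun n => (hW _ (hu n)).2.2) (hW y hy).1 (hW y hy).2.1 (hW y hy).2.2 b tendsto_const_nhds
    tendsto_const_nhds
  exact (Metric.tendsto_nhds.1 h2 ε hε).exists

end Pool.XR2
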