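import Pool.Agent.H62.XR2.A8D
import Pool.Agent.H52.XR2.S2

set_option autoImplicit false

open MeasureTheory Set Filter Topology Metric Asymptotics
open scoped Real ENNReal

namespace Pool.XR2

open Pool.Agent.H45.XR

/-! ### radial functions -/

lemma rad_lim {C : ℕ → Set ℂ} {D : Set ℂ} (hD : Body D) (hl : BLim C D) {x : ℕ → ℝ} {y : ℝ}
    (hx : Tendsto x atTop (𝓝 y)) : Tendsto (fun n => rad (C n) (x n)) atTop (𝓝 (rad D y)) :=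
  hl.tendsto_comp (rad_cont hD).continuousAt hx

lemma e_cont : Continuous e := e_lipschitz.continuous

lemma pt_lim {C : ℕ → Set ℂ} {D : Set ℂ} (hD : Body D) (hl : BLim C D) {x : ℕ → ℝ} {y : ℝ}
    (hx : Tendsto x atTop (𝓝 y)) : Tendsto (fun n => pt (C n) (x n)) atTop (𝓝 (pt D y)) := by
  unfold pt
  have h1 := rad_lim hD hl hx
  have h2 : Tendsto (fun n => ((rad (C n) (x n) : ℝ) : ℂ)) atTop (𝓝 ((rad D y : ℝ) : ℂ)) :=
    (Complex.continuous_ofReal.tendsto _).comp h1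
  exact h2.mul ((e_cont.tendsto y).comp hx)

lemma polar_e (z : ℂ) : z = (‖z‖ : ℂ) * e z.arg := by
  rw [e, Complex.norm_mul_exp_arg_mul_I]

lemma blim_mem {C : ℕ → Set ℂ} {D : Set ℂ} (hC : ∀ n, Body (C n)) (hD : Body D)
    (hl : BLim C D) {z : ℂ} (hz : z ∈ D) :
    ∃ w : ℕ → ℂ, (∀ n, w n ∈ C n) ∧ Tendsto w atTop (𝓝 z) := by
  have hle : ‖z‖ ≤ rad D z.arg := by
    rw [← mem_iff_le_rad hD _ (norm_nonneg z), ← polar_e]; exact hz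
  refine ⟨fun n => ((min ‖z‖ (rad (C n) z.arg) : ℝ) : ℂ) * e z.arg, fun n => ?_, ?_⟩
  · rw [mem_iff_le_rad (hC n) _ (le_min (norm_nonneg z) (rad_pos (hC n) _).le)]
    exact min_le_right _ _
  · have h1 := rad_lim hD hl (x := fun _ => z.arg) tendsto_const_nhds
    have h2 : Tendsto (fun n => min ‖z‖ (rad (C n) z.arg)) atTop (𝓝 (min ‖z‖ (rad D z.arg))) :=
      tendsto_const_nhds.min h1
    rw [min_eq_left hle] at h2
    have h3 : Tendsto (fun n => ((min ‖z‖ (rad (C n) z.arg) : ℝ) : ℂ)) atTop (𝓝 ((‖z‖ : ℝ) : ℂ)) :=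
      (Complex.continuous_ofReal.tendsto _).comp h2
    have h4 := h3.mul_const (e z.arg)
    rw [← polar_e] at h4
    exact h4

lemma lv_lim {C : ℕ → Set ℂ} {D : Set ℂ} (hC : ∀ n, Body (C n)) (hD : Body D)
    (hl : BLim C D) {φ κ κ' : ℝ} {x : ℕ → ℝ} {y : ℝ} (hx : Tendsto x atTop (𝓝 y))
    (h : Lv D φ κ y) (hk : κ' < κ) : ∀ᶠ n in atTop, Lv (C n) φ κ' (x n) := by
  obtain ⟨⟨z, hz, h1⟩, ⟨z', hz', h2⟩⟩ := h
  obtain ⟨w, hw, hwl⟩ := blim_mem hC hD hl hz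
  obtain ⟨w', hw', hwl'⟩ := blim_mem hC hD hl hz'
  have hp := ((continuous_tc φ).tendsto _).comp (pt_lim hD hl hx)
  have ht := ((continuous_tc φ).tendsto _).comp hwl
  have ht' := ((continuous_tc φ).tendsto _).comp hwl'
  have h3 : ∀ᶠ n in atTop, tc φ (w n) + κ' < tc φ (pt (C n) (x n)) := by
    have h4 : Tendsto (fun n => tc φ (w n) + κ') atTop (𝓝 (tc φ z + κ')) := ht.add_const κ'
    exact h4.eventually_lt hp (by linarith)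
  have h5 : ∀ᶠ n in atTop, tc φ (pt (C n) (x n)) + κ' < tc φ (w' n) := by
    have h4 : Tendsto (fun n => tc φ (pt (C n) (x n)) + κ') atTop (𝓝 (tc φ (pt D y) + κ')) :=
      hp.add_const κ'
    exact h4.eventually_lt ht' (by linarith)
  filter_upwards [h3, h5] with n h6 h7
  exact ⟨⟨w n, hw n, h6.le⟩, ⟨w' n, hw' n, h7.le⟩⟩

lemma orbC_lim (hFLC : FLCStmt) {C : ℕ → Set ℂ} {D : Set ℂ} {φ₀ φ₁ : ℝ} (hC : ∀ n, Body (C n))
    (h0 : ∀ n, NoSeg (C n) φ₀) (h1 : ∀ n, NoSeg (C n) φ₁) (hD : Body D) (hD0 : NoSeg D φ₀)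
    (hD1 : NoSeg D φ₁) (hl : BLim C D) {x : ℕ → ℝ} {y : ℝ} (hx : Tendsto x atTop (𝓝 y)) (k : ℕ) :
    Tendsto (fun n => orbC (C n) φ₀ φ₁ (x n) k) atTop (𝓝 (orbC D φ₀ φ₁ y k)) := by
  induction k with
  | zero => exact hx
  | succ k ih =>
    unfold orbC at ih ⊢
    simp only [orb]
    by_cases hk : Even k
    · simp only [hk, if_true]
      exact hFLC C D (fun _ => φ₀) φ₀ _ _ hC h0 hD hD0 hl tendsto_const_nhds ih
    · simp only [hk, if_false]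
      exact hFLC C D (fun _ => φ₁) φ₁ _ _ hC h1 hD hD1 hl tendsto_const_nhds ih

lemma tt_orbC (C : Set ℂ) (φ₀ φ₁ x : ℝ) (q : ℕ) :
    (TT C φ₀ φ₁)^[q] x = orbC C φ₀ φ₁ x (2 * q) := ((orb_even (fl C φ₀) (fl C φ₁) x q).1).symm

lemma dsp_lim (hFLC : FLCStmt) {C : ℕ → Set ℂ} {D : Set ℂ} {φ₀ φ₁ : ℝ} (hC : ∀ n, Body (C n))
    (h0 : ∀ n, NoSeg (C n) φ₀) (h1 : ∀ n, NoSeg (C n) φ₁) (hD : Body D) (hD0 : NoSeg D φ₀)
    (hD1 : NoSeg D φ₁) (hl : BLim C D) {x : ℕ → ℝ} {y : ℝ} (hx : Tendsto x atTop (𝓝 y))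
    (p : ℤ) (q : ℕ) :
    Tendsto (fun n => dsp (C n) φ₀ φ₁ p q (x n)) atTop (𝓝 (dsp D φ₀ φ₁ p q y)) := by
  unfold dsp
  simp only [tt_orbC]
  exact ((orbC_lim hFLC hC h0 h1 hD hD0 hD1 hl hx (2 * q)).sub hx).sub_const _

/-! ### sections -/

lemma hts_open (K : Set (ℂ × ℝ)) : IsOpen (Hts K) := by
  rw [isOpen_iff_mem_nhds]
  rintro y ⟨z, hz⟩
  have hc : Continuous (fun h : ℝ => ((z, h) : ℂ × ℝ)) := by fun_prop
  have h1 : ∀ᶠ h in 𝓝 y, ((z, h) : ℂ × ℝ) ∈ interior K :=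
    hc.continuousAt.eventually (isOpen_interior.mem_nhds hz)
  filter_upwards [h1] with h hh
  exact ⟨z, hh⟩

lemma inl_ev {K : Set (ℂ × ℝ)} {φ x y : ℝ} (h : Inl K φ x y) : ∀ᶠ h' in 𝓝 y, Inl K φ x h' := by
  obtain ⟨z, hz, hx⟩ := h
  have hc : Continuous (fun h : ℝ => ((z, h) : ℂ × ℝ)) := by fun_prop
  have h1 : ∀ᶠ h in 𝓝 y, ((z, h) : ℂ × ℝ) ∈ interior K :=
    hc.continuousAt.eventually (isOpen_interior.mem_nhds hz)
  filter_upwards [h1] with h hh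
  exact ⟨z, hh, hx⟩

lemma inl_int {K : Set (ℂ × ℝ)} (hK : Body3 K) {φ x y : ℝ} (h : Inl K φ x y) :
    ∃ z ∈ interior (Cq K y), tc φ z = x - tc φ (cen (sec K y)) := by
  obtain ⟨z, hz, hx⟩ := h
  refine ⟨z - cen (sec K y), ?_, by rw [tc_sub, hx]⟩
  unfold Cq
  rw [interior_tr, mem_tr, sub_add_cancel, interior_sec hK ⟨z, hz⟩]
  exact hz

lemma inl_hts {K : Set (ℂ × ℝ)} {φ x y : ℝ} (h : Inl K φ x y) : y ∈ Hts K := by
  obtain ⟨z, hz, -⟩ := h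
  exact ⟨z, hz⟩

lemma cq_lim (hCSC : CSCStmt) (hSGB : SGBStmt) {K : Set (ℂ × ℝ)} (hK : Body3 K) {h : ℕ → ℝ}
    {y : ℝ} (hh : Tendsto h atTop (𝓝 y)) (hy : y ∈ Hts K) :
    BLim (fun n => Cq K (h n)) (Cq K y) ∧
      Tendsto (fun n => cen (sec K (h n))) atTop (𝓝 (cen (sec K y))) := by
  have h1 := hCSC K (fun _ => 0) 0 h y hK tendsto_const_nhds hh (by rw [(hSGB K hK).2.1]; exact hy)
  simp only [(hSGB K hK).2.1] at h1
  exact h1.2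

lemma ta_lim (hTAC : TACStmt) (hCSC : CSCStmt) (hSGB : SGBStmt) {K : Set (ℂ × ℝ)}
    (hK : Body3 K) {φ x : ℝ} (hN : NSH K φ) {h : ℕ → ℝ} {y : ℝ} (hH : ∀ n, h n ∈ Hts K)
    (hh : Tendsto h atTop (𝓝 y)) (hi : Inl K φ x y) :
    Tendsto (fun n => ta K φ x (h n)) atTop (𝓝 (ta K φ x y)) := by
  have hy := inl_hts hi
  obtain ⟨h1, h2⟩ := cq_lim hCSC hSGB hK hh hy
  unfold ta
  refine hTAC (fun n => Cq K (h n)) (Cq K y) φ (fun n => x - tc φ (cen (sec K (h n)))) _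
    (fun n => body_Cq hK (hH n)) (fun n => hN _ (hH n)) (body_Cq hK hy) (hN _ hy) h1 ?_
    (inl_int hK hi)
  exact tendsto_const_nhds.sub (((continuous_tc φ).tendsto _).comp h2)

/-- Reduction to sequences. -/
lemma ev_seq {K : Set (ℂ × ℝ)} {y : ℝ} (hy : y ∈ Hts K) {P : ℝ → Prop}
    (h : ∀ u : ℕ → ℝ, (∀ n, u n ∈ Hts K) → Tendsto u atTop (𝓝 y) → ∃ n, P (u n)) :
    ∀ᶠ h in 𝓝 y, P h := by
  by_contra hcon
  have h1 : ∃ᶠ h in 𝓝 y, ¬ P h := Filter.not_eventually.1 hcon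
  have h2 : ∃ᶠ h in 𝓝 y, ¬ P h ∧ h ∈ Hts K := h1.and_eventually ((hts_open K).mem_nhds hy)
  obtain ⟨u, hu1, hu2⟩ := exists_seq_forall_of_frequently h2
  obtain ⟨n, hn⟩ := h u (fun n => (hu2 n).2) hu1
  exact (hu2 n).1 hn

lemma rad_ev (hCSC : CSCStmt) (hSGB : SGBStmt) {K : Set (ℂ × ℝ)} (hK : Body3 K) {y : ℝ}
    (hy : y ∈ Hts K) {ε : ℝ} (hε : 0 < ε) :
    ∀ᶠ h in 𝓝 y, ∀ θ, |rad (Cq K h) θ - rad (Cq K y) θ| < ε := by
  apply ev_seq hy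
  intro u hu hl
  have h1 := Metric.tendstoUniformly_iff.1 (cq_lim hCSC hSGB hK hl hy).1 ε hε
  obtain ⟨n, hn⟩ := h1.exists
  refine ⟨n, fun θ => ?_⟩
  have := hn θ
  rw [Real.dist_eq, abs_sub_comm] at this
  exact this

lemma bd_of_rad {C : Set ℂ} (hC : Body C) {r R : ℝ} (h1 : ∀ θ, r ≤ rad C θ)
    (h2 : ∀ θ, rad C θ ≤ R) : Bd r R C := by
  refine ⟨hC, ?_, ?_⟩
  · intro z hz
    rw [mem_ball_zero_iff] at hz
    rw [polar_e z, mem_iff_le_rad hC _ (norm_nonneg z)]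
    exact hz.le.trans (h1 _)
  · intro z hz
    rw [mem_closedBall_zero_iff]
    rw [polar_e z, mem_iff_le_rad hC _ (norm_nonneg z)] at hz
    exact hz.trans (h2 _)

lemma bd_mono {C : Set ℂ} {r R r' R' : ℝ} (h : Bd r R C) (hr : r' ≤ r) (hR : R ≤ R') :
    Bd r' R' C :=
  ⟨h.body, (ball_subset_ball hr).trans h.inn, h.out.trans (closedBall_subset_closedBall hR)⟩

lemma bd_ev (hCSC : CSCStmt) (hSGB : SGBStmt) {K : Set (ℂ × ℝ)} (hK : Body3 K) {y : ℝ}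
    (hy : y ∈ Hts K) : ∃ r > 0, ∃ R : ℝ, ∀ᶠ h in 𝓝 y, Bd r R (Cq K h) := by
  have hB := body_Cq hK hy
  obtain ⟨r, hr, h1⟩ := A2.rad_ge hB
  obtain ⟨R, hR, h2⟩ := rad_le hB
  refine ⟨r / 2, by positivity, R + r / 2, ?_⟩
  have h3 := rad_ev hCSC hSGB hK hy (ε := r / 2) (by positivity)
  filter_upwards [h3, (hts_open K).mem_nhds hy] with h h4 h5
  refine bd_of_rad (body_Cq hK h5) (fun θ => ?_) (fun θ => ?_)
  · have := abs_lt.1 (h4 θ); have := h1 θ; linarith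
  · have := abs_lt.1 (h4 θ); have := h2 θ; linarith

end Pool.XR2
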