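import Pool.Agent.H52.XR2.CMT
import Pool.Agent.H62.XR2.RCT

/-!
# Project XR2: TWL, the dichotomy for close directions
-/

set_option autoImplicit false

open MeasureTheory Set Filter Topology Metric Asymptotics
open scoped Real ENNReal RealInnerProductSpace

namespace Pool.XR2

open Pool.Agent.H45.XR Pool.Agent.H45.XR.B3

lemma twl_tc_le (φ : ℝ) (z : ℂ) : |tc φ z| ≤ ‖z‖ := by
  have h := polar_e z
  rw [h, tc_mul, tc_e, norm_mul, norm_e, mul_one, abs_mul, Complex.norm_real, Real.norm_eq_abs,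
    abs_of_nonneg (norm_nonneg z)]
  exact mul_le_of_le_one_right (norm_nonneg z) (Real.abs_sin_le_one _)

/-- a mate does not leave the strip -/
lemma mate_tc_le {r R : ℝ} {C C' : Set ℂ} {φ : ℝ} (hC : Bd r R C) (hC' : Body C')
    (hX : SameX C C' φ) {z : ℂ} (hz : z ∈ C') : |tc φ z| ≤ R := by
  have key : ∀ ψ, SameX C C' ψ → -R ≤ tc ψ z := by
    intro ψ hX
    obtain ⟨c, hc, hm⟩ := hC.body.cpt.exists_isMinOn ⟨0, hC.body.zero_mem⟩
      (continuous_tc ψ).continuousOn
    have h1 := CMTaux.min_le hC.body hC' hX hc (fun w hw => hm hw) z hz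
    have h2 : |tc ψ c| ≤ ‖c‖ := twl_tc_le ψ c
    have h3 : ‖c‖ ≤ R := by simpa using hC.out hc
    have := (abs_le.1 (h2.trans h3)).1
    linarith
  have h1 := key φ hX
  have h2 := key (φ + π) (sameX_add_pi hX)
  rw [tc_add_pi] at h2
  rw [abs_le]
  constructor <;> linarith

theorem t_twl (hSLP : SLPStmt) (hTLA : TLAStmt) (hTLB : TLBStmt) (hTLC : TLCStmt)
    (hSMR : SMRStmt) : TWLStmt := by
  intro r R ε hr hε
  have hpi := Real.pi_pos
  set R' : ℝ := max R 1 with hR'
  have hR1 : 1 ≤ R' := le_max_right _ _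
  have hRR : R ≤ R' := le_max_left _ _
  have hR0 : 0 < R' := by linarith
  obtain ⟨A, hA, θ₁, h1, H1⟩ := hSLP r R hr
  obtain ⟨θ₂, h2, H2⟩ := hTLA r R A (min ε (r / 2)) hr (lt_min hε (by linarith))
  obtain ⟨θ₃, h3, H3⟩ := hTLB r R A ε hr hε
  obtain ⟨θ₄, h4, H4⟩ := hTLC r R A ε hr hε
  set B : ℝ := min (min (ε * r / (8 * R')) (r / (200 * R'))) (min 1 (ε / (A + R'))) with hB
  have hB0 : 0 < B := by
    rw [hB]
    refine lt_min (lt_min (by positivity) (by positivity)) (lt_min one_pos (by positivity))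
  refine ⟨min (min θ₁ θ₂) (min (min θ₃ θ₄) B), lt_min (lt_min h1 h2) (lt_min (lt_min h3 h4) hB0), ?_⟩
  intro C C' φ θ hC hcen hPM hθ
  have hθ0 : 0 < θ := by have := hPM.h01; linarith
  have t1 : θ < θ₁ := hθ.trans_le ((min_le_left _ _).trans (min_le_left _ _))
  have t2 : θ < θ₂ := hθ.trans_le ((min_le_left _ _).trans (min_le_right _ _))
  have t3 : θ < θ₃ := hθ.trans_le ((min_le_right _ _).trans
    ((min_le_left _ _).trans (min_le_left _ _)))
  have t4 : θ < θ₄ := hθ.trans_le ((min_le_right _ _).trans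
    ((min_le_left _ _).trans (min_le_right _ _)))
  have tB : θ < B := hθ.trans_le ((min_le_right _ _).trans (min_le_right _ _))
  have b1 : θ < ε * r / (8 * R') := tB.trans_le ((min_le_left _ _).trans (min_le_left _ _))
  have b2 : θ < r / (200 * R') := tB.trans_le ((min_le_left _ _).trans (min_le_right _ _))
  have b3 : θ < 1 := tB.trans_le ((min_le_right _ _).trans (min_le_left _ _))
  have b4 : θ < ε / (A + R') := tB.trans_le ((min_le_right _ _).trans (min_le_right _ _))
  rw [lt_div_iff₀ (by positivity)] at b1 b2 b4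
  have hsin : Real.sin θ ≤ θ := Real.sin_le hθ0.le
  have hsin0 : 0 < Real.sin θ := Real.sin_pos_of_pos_of_lt_pi hθ0 (by linarith [Real.pi_gt_three])
  have hcos : 1 - θ ^ 2 / 2 ≤ Real.cos θ := Real.one_sub_sq_div_two_le_cos
  have hcos0 : 0 < Real.cos θ := by nlinarith
  rcases H1 C C' φ θ hC hcen hPM t1 with hb | hs
  · left
    have hrad := H2 C C' φ θ hC hcen hPM t2 hb
    refine ⟨fun α => (hrad α).trans (min_le_left _ _), ?_⟩
    have hW := body_inter hPM.b hPM.b'
    have n0 := noSeg_inter hPM.b hPM.b' hPM.x0 hPM.n0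
    have n1 := noSeg_inter hPM.b hPM.b' hPM.x1 hPM.n1
    have hrr : ∀ α, r ≤ rad C α := by
      intro α
      by_contra hlt
      push Not at hlt
      have hrp := rad_pos hPM.b α
      have hm : (((rad C α + r) / 2 : ℝ) : ℂ) * e α ∈ C := by
        apply hC.inn
        rw [mem_ball_zero_iff, norm_mul, norm_e, mul_one, Complex.norm_real, Real.norm_eq_abs,
          abs_of_pos (by linarith)]
        linarith
      have := (mem_iff_le_rad hPM.b α (by linarith)).1 hm
      linarith
    have hball : ∀ α, r / 2 ≤ rad (C ∩ C') α := by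
      intro α
      rw [rad_inter hPM.b hPM.b']
      have h5 := (abs_le.1 ((hrad α).trans (min_le_right _ _))).1
      have h6 := hrr α
      exact le_min (by linarith) (by linarith)
    have hmem : ∀ α, ((r / 2 : ℝ) : ℂ) * e α ∈ C ∩ C' := by
      intro α
      exact (mem_iff_le_rad hW α (by linarith)).2 (hball α)
    have hsm := hSMR (C ∩ C') φ θ (2 * R') r hW n0 n1 hθ0 (by linarith [Real.pi_gt_three])
      (by
        intro p hp q hq
        have h5 : ‖p‖ ≤ R := by simpa using hC.out hp.1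
        have h6 : ‖q‖ ≤ R := by simpa using hC.out hq.1
        have := norm_sub_le p q
        linarith)
      ⟨_, hmem (φ - π / 2), _, hmem (φ + π / 2), by
        rw [tc_mul, tc_mul, tc_e, tc_e]
        have e1 : φ + π / 2 - φ = π / 2 := by ring
        have e2 : φ - π / 2 - φ = -(π / 2) := by ring
        rw [e1, e2, Real.sin_neg, Real.sin_pi_div_two]
        linarith⟩ hr
      (by nlinarith)
    refine hsm.trans ?_
    rw [div_le_iff₀ hr]
    nlinarith
  · right
    refine ⟨H3 C C' φ θ hC hcen hPM t3 hs, ?_, H4 C C' φ θ hC hcen hPM t4 hs⟩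
    intro z hz
    have hz1 := hs z hz
    have hz2 := mate_tc_le hC hPM.b' hPM.x0 hz
    have hlow : Real.cos θ ≤ θ * (Real.cos θ / Real.sin θ) := by
      rw [← mul_div_assoc, le_div_iff₀ hsin0]
      nlinarith
    have hup : θ * (Real.cos θ / Real.sin θ) ≤ 1 := by
      rw [← mul_div_assoc, div_le_one hsin0]
      have := Real.lt_tan hθ0 (by linarith [Real.pi_gt_three])
      rw [Real.tan_eq_sin_div_cos, lt_div_iff₀ hcos0] at this
      exact this.le
    have e1 : θ * yc φ z - 2 * tc φ z =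
        θ * (yc φ z - 2 * (Real.cos θ / Real.sin θ) * tc φ z) +
          2 * (θ * (Real.cos θ / Real.sin θ) - 1) * tc φ z := by ring
    rw [e1]
    refine (abs_add_le _ _).trans ?_
    rw [abs_mul, abs_mul, abs_of_pos hθ0]
    have e2 : |2 * (θ * (Real.cos θ / Real.sin θ) - 1)| ≤ θ ^ 2 := by
      rw [abs_le]
      constructor
      · linarith
      · have : 0 ≤ θ ^ 2 := sq_nonneg θ
        linarith
    have e3 : θ * |yc φ z - 2 * (Real.cos θ / Real.sin θ) * tc φ z| ≤ θ * A :=
      mul_le_mul_of_nonneg_left hz1 hθ0.le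
    have e4 : |2 * (θ * (Real.cos θ / Real.sin θ) - 1)| * |tc φ z| ≤ θ ^ 2 * R' :=
      mul_le_mul e2 (hz2.trans hRR) (abs_nonneg _) (sq_nonneg _)
    have e5 : θ ^ 2 * R' ≤ θ * R' := by
      apply mul_le_mul_of_nonneg_right _ hR0.le
      nlinarith
    nlinarith

end Pool.XR2
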